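import Pool.Agent.Lib.MP_182bbb_co.TT.H5.Noc
import Pool.Agent.Lib.MP_182bbb_co.TT.H12.Bridge
import Pool.Agent.Lib.MP_182bbb_co.TT.H12.Grow
import Pool.Agent.Lib.MP_182bbb_co.TT.H14.Clean
import Pool.Agent.Lib.MP_182bbb_co.TT.H14.Trf
import Pool.Agent.Lib.MP_182bbb_co.TT.H14.Tzero
import Pool.Agent.Lib.MP_182bbb_co.TT.H17.Omega
import Pool.Agent.Lib.MP_182bbb_co.TT.H52.Acc
import Pool.Agent.Lib.MP_182bbb_co.TT.H52.Cnt
import Pool.Agent.Lib.MP_182bbb_co.TT.H52.Ll0
import Pool.Agent.Lib.MP_182bbb_co.TT.H52.Upper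
import Pool.Agent.Lib.MP_182bbb_co.TT.H70.Blow
import Pool.Agent.Lib.MP_182bbb_co.TT.H70.Coord
import Pool.Agent.Lib.MP_182bbb_co.TT.H70.Fin
import Pool.Agent.Lib.MP_182bbb_co.TT.H72.LL
import Pool.Agent.Lib.MP_182bbb_co.TT.H72.Star
import Pool.Agent.Lib.MP_182bbb_co.TT.H95.All
import Pool.Agent.Lib.MP_182bbb_co.TT.H95.Greed
import Pool.Agent.Lib.MP_182bbb_co.TT.H95.Lower

/-!
# Assembly: the limit for strict 3-uniform tight trees
-/

open Finset Filter Topology

namespace MP_182bbb_co.TT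

open MP_182bbb_co.H5

theorem heavy' : HEAVY_S := H52.heavy H52.peel (H95.greed tree)

theorem all' : ALL_S := H95.all_light tree

theorem trf' : TRF_S := H14.trf tree root0 grb

theorem grow' : GROW_S :=
  H12.grow grb dens (H52.acc1 trf') (H52.acc3 trf') (H52.acc4 trf' dens) noc root0

theorem tzero' : TZERO_S := H14.tzero tree

theorem omega' : OMEGA_S := H17.omega tree tzero' H70.blow H70.coord H14.clean

theorem star' : STAR_S := H72.star_ineq root root0

theorem ll' : LL_S :=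
  H72.ll heavy' all' omega' grow' (H72.core tree root0 tzero' H70.fin star') tzero' H52.peel

theorem ll0' : LL0_S := H52.ll0 H52.peel heavy' all' grow' (H72.core0 H70.fin star')

theorem upper' : UPPER_S := H52.upper ll' ll0' H52.cnt H52.peel heavy'

theorem lower' : LOWER_S := H95.lower tree

/-- from asymptotic bounds to the limit -/
lemma tendsto_of_bounds (N : ℕ) (f : ℕ → ℕ)
    (hup : ∀ ε : ℝ, 0 < ε → ∃ n0 : ℕ, ∀ n, n0 ≤ n → 2 * (f n : ℝ) ≤ (N + ε) * (n : ℝ) ^ 2)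
    (hlow : ∀ n, N ≤ n → N * (n - N).choose 2 ≤ f n) :
    Tendsto (fun n : ℕ => (f n : ℝ) / (n.choose 2 : ℝ)) atTop (𝓝 (N : ℝ)) := by
  rw [Metric.tendsto_atTop]
  intro ε hε
  obtain ⟨n0, hn0⟩ := hup (ε / 8) (by positivity)
  refine ⟨max n0 (max (N + 2) (⌈(8 * N ^ 2 + 8 * N) / ε⌉₊ + 1)), ?_⟩
  intro n hn
  have hn1 : n0 ≤ n := (le_max_left _ _).trans hn
  have hn2 : N + 2 ≤ n := (le_max_left _ _).trans ((le_max_right _ _).trans hn)
  have hn3 : ⌈(8 * N ^ 2 + 8 * N) / ε⌉₊ + 1 ≤ n :=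
    (le_max_right _ _).trans ((le_max_right _ _).trans hn)
  have hn2' : (2 : ℝ) ≤ n := by
    have : 2 ≤ n := by omega
    exact_mod_cast this
  have hN0 : (0 : ℝ) ≤ N := Nat.cast_nonneg _
  have hch : (n.choose 2 : ℝ) = n * (n - 1) / 2 := Nat.cast_choose_two ℝ n
  have hC : (n : ℝ) ^ 2 ≤ 4 * (n.choose 2 : ℝ) := by
    rw [hch]
    nlinarith
  have hnpos : (0 : ℝ) < n := by linarith
  have hCpos : (0 : ℝ) < (n.choose 2 : ℝ) := by nlinarith
  have h7 : (8 * N ^ 2 + 8 * N : ℝ) ≤ ε * n := by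
    have h8 : ((8 * N ^ 2 + 8 * N) / ε : ℝ) ≤ ⌈((8 * N ^ 2 + 8 * N) / ε : ℝ)⌉₊ := Nat.le_ceil _
    have h9 : ((⌈((8 * N ^ 2 + 8 * N) / ε : ℝ)⌉₊ + 1 : ℕ) : ℝ) ≤ n := Nat.cast_le.2 hn3
    push_cast at h9
    have h10 : ((8 * N ^ 2 + 8 * N) / ε : ℝ) ≤ n := by linarith
    rw [div_le_iff₀ hε] at h10
    linarith
  -- upper bound
  have hup' : (f n : ℝ) ≤ N * (n.choose 2 : ℝ) + ε / 8 * (n : ℝ) ^ 2 := by
    have h1 := hn0 n hn1
    have h2 : (n : ℝ) ^ 2 = 2 * (n.choose 2 : ℝ) + n := by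
      rw [hch]
      ring
    have h3 : (N : ℝ) * n ≤ ε / 8 * (n : ℝ) ^ 2 := by nlinarith
    nlinarith
  -- lower bound
  have hlow' : N * (n.choose 2 : ℝ) - ε / 8 * (n : ℝ) ^ 2 ≤ (f n : ℝ) := by
    have h1 := hlow n (by omega)
    have h2 := choose_two_le (n - N) N
    rw [Nat.sub_add_cancel (by omega : N ≤ n)] at h2
    have h3 : (N * (n - N).choose 2 : ℝ) ≤ (f n : ℝ) := by exact_mod_cast h1
    have h4 : (n.choose 2 : ℝ) ≤ ((n - N).choose 2 : ℝ) + N * n := by exact_mod_cast h2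
    have h5 : (N : ℝ) * (n.choose 2 : ℝ) ≤ N * ((n - N).choose 2 : ℝ) + N ^ 2 * n := by
      nlinarith
    have h6 : (N : ℝ) ^ 2 * n ≤ ε / 8 * (n : ℝ) ^ 2 := by nlinarith
    linarith
  rw [Real.dist_eq, abs_lt]
  constructor
  · rw [lt_sub_iff_add_lt, lt_div_iff₀ hCpos]
    nlinarith
  · rw [sub_lt_iff_lt_add, div_lt_iff₀ hCpos]
    nlinarith

universe u

/-- The main theorem. -/
theorem strict_tree_limit {α : Type u} [DecidableEq α] {H : Finset (Finset α)}
    (hH : IsStrictTree H) : IsTightTree H ∧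
      Tendsto (fun n : ℕ => (ex 3 n (expansion 1 (H5.shadow H)) : ℝ) / (n.choose 2 : ℝ)) atTop
        (𝓝 (H.card : ℝ)) := by
  classical
  obtain ⟨htight, hb⟩ := H12.bridge α H hH
  refine ⟨htight, ?_⟩
  have hne : H.Nonempty := by
    obtain ⟨k, e, _, he, _⟩ := hH
    rw [← he]
    exact ⟨e 0, mem_image_of_mem _ (mem_univ _)⟩
  by_cases h2 : 2 ≤ H.card
  · obtain ⟨b, hb1, hbr⟩ := hb h2
    refine tendsto_of_bounds H.card (fun n => ex 3 n (expansion 1 (H5.shadow H))) ?_ ?_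
    · intro ε hε
      obtain ⟨n0, hn0⟩ := upper' H.card b ε h2 hb1 hε
      refine ⟨n0, fun n hn => ?_⟩
      have hpos : 0 ≤ (H.card + ε) * (n : ℝ) ^ 2 / 2 := by positivity
      have hfl : ex 3 n (expansion 1 (H5.shadow H)) ≤ ⌊(H.card + ε) * (n : ℝ) ^ 2 / 2⌋₊ := by
        refine ex_le ?_
        intro G hG hfree
        have h1 := hn0 (Fin n) G (by rw [Fintype.card_fin]; exact hn) hG
          (fun h => hfree ((hbr (Fin n) G hG).2 h))
        rw [Fintype.card_fin] at h1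
        exact Nat.le_floor (by linarith)
      have h3 := (Nat.cast_le (α := ℝ)).2 hfl
      have h4 := Nat.floor_le hpos
      linarith
    · intro n hn
      obtain ⟨L, _, hLc⟩ := exists_subset_card_eq (s := (univ : Finset (Fin n))) (n := H.card)
        (by rw [card_univ, Fintype.card_fin]; exact hn)
      have h1 := le_card_star L
      rw [card_compl, Fintype.card_fin, hLc] at h1
      refine h1.trans (MP_182bbb_co.H5.le_ex (star L) (star_uniform L) ?_)
      intro hc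
      exact lower' (Fin n) H.card b L hLc.le ((hbr (Fin n) (star L) (star_uniform L)).1 hc)
  · have h1 : H.card = 1 := by
      have := hne.card_pos
      omega
    obtain ⟨e, he⟩ := card_eq_one.1 h1
    have he3 : e.card = 3 := by
      obtain ⟨k, f, _, hf, h3, _⟩ := hH
      have : e ∈ univ.image f := by rw [hf, he]; exact mem_singleton_self e
      obtain ⟨i, _, rfl⟩ := mem_image.1 this
      exact h3 i
    obtain ⟨x, y, w, hxy, _, _, hxyw⟩ := card_eq_three.1 he3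
    have hbook : IsBook H x y := by
      refine ⟨hxy, ?_, ?_, ?_⟩
      · intro f hf
        rw [he, mem_singleton] at hf
        rw [hf]
        exact he3
      · intro f hf
        rw [he, mem_singleton] at hf
        rw [hf, hxyw]
        simp
      · intro f hf
        rw [he, mem_singleton] at hf
        rw [hf, hxyw]
        simp
    exact hbook.tendsto hne

end MP_182bbb_co.TT
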