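import Pool.Agent.Lib.MP_182bbb_co.TT.H5.Grb

/-!
# DENS: the law of a real triple has bounded density
-/

open Finset

namespace MP_182bbb_co.TT

open MP_182bbb_co.H5

section Coord

variable {V : Type*} [DecidableEq V] [Fintype V]

lemma card_fix2 {N : ℕ} {u v : Fin (N + 2)} (huv : u ≠ v) (p q : V) :
    ((univ : Finset (Fin (N + 2) → V)).filter (fun ω => ω u = p ∧ ω v = q)).card
      = Fintype.card V ^ N := by
  classical
  have h : ((univ : Finset (Fin (N + 2) → V)).filter (fun ω => ω u = p ∧ ω v = q))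
      = Fintype.piFinset (fun k => if k = u then {p} else if k = v then {q} else univ) := by
    ext ω
    rw [mem_filter, Fintype.mem_piFinset]
    constructor
    · rintro ⟨_, h1, h2⟩ k
      split_ifs with hk hk'
      · subst hk
        rw [mem_singleton]
        exact h1
      · subst hk'
        rw [mem_singleton]
        exact h2
      · exact mem_univ _
    · intro h
      refine ⟨mem_univ _, ?_, ?_⟩
      · have := h u
        rw [if_pos rfl, mem_singleton] at this
        exact this
      · have := h v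
        rw [if_neg huv.symm, if_pos rfl, mem_singleton] at this
        exact this
  rw [h, Fintype.card_piFinset]
  have h2 : ∀ k : Fin (N + 2), (if k = u then ({p} : Finset V) else if k = v then {q} else
      univ).card = if k ∈ ({u, v} : Finset (Fin (N + 2))) then 1 else Fintype.card V := by
    intro k
    by_cases h1 : k = u
    · simp [h1]
    · by_cases h3 : k = v
      · subst h3
        simp [h1]
      · rw [if_neg h1, if_neg h3, if_neg, card_univ]
        rw [mem_insert, mem_singleton]
        tauto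
  rw [prod_congr rfl (fun k _ => h2 k), prod_ite, prod_const_one, one_mul, prod_const]
  congr 1
  have h3 : (univ : Finset (Fin (N + 2))).filter (fun k => k ∉ ({u, v} : Finset (Fin (N + 2))))
      = univ \ {u, v} := by
    ext k
    simp
  rw [h3, card_sdiff_of_subset (subset_univ _), card_pair huv, card_univ, Fintype.card_fin]
  omega

lemma sum_coord2 {N : ℕ} {u v : Fin (N + 2)} (huv : u ≠ v) (g : V → V → ℝ) :
    ∑ ω : Fin (N + 2) → V, g (ω u) (ω v) = (Fintype.card V : ℝ) ^ N * ∑ p, ∑ q, g p q := by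
  have h1 : ∀ ω : Fin (N + 2) → V, g (ω u) (ω v)
      = ∑ p, ∑ q, if ω u = p ∧ ω v = q then g p q else 0 := by
    intro ω
    rw [sum_eq_single (ω u), sum_eq_single (ω v)]
    · rw [if_pos ⟨rfl, rfl⟩]
    · intro q _ hq
      rw [if_neg]
      rintro ⟨_, h⟩
      exact hq h.symm
    · intro h
      exact absurd (mem_univ _) h
    · intro p _ hp
      refine sum_eq_zero (fun q _ => ?_)
      rw [if_neg]
      rintro ⟨h, _⟩
      exact hp h.symm
    · intro h
      exact absurd (mem_univ _) h
  rw [sum_congr rfl (fun ω _ => h1 ω), sum_comm, mul_sum]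
  refine sum_congr rfl (fun p _ => ?_)
  rw [sum_comm, mul_sum]
  refine sum_congr rfl (fun q _ => ?_)
  rw [← sum_filter, sum_const, card_fix2 huv p q, nsmul_eq_mul]
  push_cast
  ring

lemma sum_coord1 {N : ℕ} (v : Fin (N + 2)) (g : V → ℝ) :
    ∑ ω : Fin (N + 2) → V, g (ω v) = (Fintype.card V : ℝ) ^ (N + 1) * ∑ q, g q := by
  obtain ⟨u, hu⟩ : ∃ u : Fin (N + 2), u ≠ v := exists_ne v
  rw [sum_coord2 hu (fun _ q => g q), sum_const, card_univ, nsmul_eq_mul, pow_succ]
  ring

end Coord

section Main

variable {V : Type*} [DecidableEq V] [Fintype V] {N : ℕ} {b : ℕ → ℕ} {in0 : ℕ → Prop}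
  {J : Finset ℕ} {X : ℕ → Prop} {A B : Finset (Finset V)}

lemma lk_comm (G : Finset (Finset V)) (x y : V) : lk G x y = lk G y x := by
  unfold lk
  ext z
  rw [mem_filter, mem_filter, swap12]

lemma mem_lk {G : Finset (Finset V)} {x y z : V} : z ∈ lk G x y ↔ ({x, y, z} : Finset V) ∈ G := by
  unfold lk
  simp

lemma mem_lk_rot {G : Finset (Finset V)} {x y z : V} : z ∈ lk G x y ↔ y ∈ lk G z x := by
  rw [mem_lk, mem_lk, rot]

lemma Tree0.dn (h : Tree0 N b in0 J X) : ∀ j, in0 j → E0 in0 (bs b j) :=
  fun j hj => h.down j (h.inN j hj) hj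

lemma S0_lt (h : Tree0 N b in0 J X) {v : ℕ} (hv : S0 in0 v) : v < N + 2 := by
  rcases hv with hv | ⟨i, hi, rfl⟩
  · omega
  · have := h.inN i hi
    omega

lemma ini_of_mem {z : ℕ → V} {ω : Fin (N + 2) → V} {v : ℕ} (h : v ∈ J) :
    ini N J z ω v = z v := by
  unfold ini
  rw [if_pos h]

lemma ini_of_notMem {z : ℕ → V} {ω : Fin (N + 2) → V} {v : ℕ} (h : v ∉ J) (hv : v < N + 2) :
    ini N J z ω v = ω ⟨v, hv⟩ := by
  unfold ini
  rw [if_neg h, dif_pos hv]

lemma card_mul_avg_le (s : Finset V) (g : V → ℝ) (hg : ∀ a, 0 ≤ g a) :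
    (s.card : ℝ) * ((∑ a ∈ s, g a) / s.card) ≤ ∑ a ∈ s, g a := by
  rcases Nat.eq_zero_or_pos s.card with h | h
  · rw [h]
    simp only [Nat.cast_zero, zero_mul]
    exact sum_nonneg (fun a _ => hg a)
  · have h' : (s.card : ℝ) ≠ 0 := by
      have : (0 : ℝ) < s.card := by exact_mod_cast h
      exact this.ne'
    rw [mul_div_cancel₀ _ h']

/-- double counting of real triples -/
lemma sum_lk_swap (A : Finset (Finset V)) (h : V → V → ℝ) :
    ∑ p : V, ∑ q : V, ∑ a ∈ lk A p q, h a p = ∑ a : V, ∑ p : V, ((lk A a p).card : ℝ) * h a p := by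
  have h1 : ∀ p q : V, ∑ a ∈ lk A p q, h a p = ∑ a : V, if a ∈ lk A p q then h a p else 0 := by
    intro p q
    rw [← sum_filter]
    congr 1
    ext a
    simp
  have h2 : ∀ a p : V, ((lk A a p).card : ℝ) * h a p
      = ∑ q : V, if a ∈ lk A p q then h a p else 0 := by
    intro a p
    rw [← sum_filter, sum_const, nsmul_eq_mul]
    congr 2
    congr 1
    ext q
    simp only [mem_filter, mem_univ, true_and]
    exact mem_lk_rot.symm
  simp only [h1, h2]
  calc ∑ p : V, ∑ q : V, ∑ a : V, (if a ∈ lk A p q then h a p else 0)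
      = ∑ p : V, ∑ a : V, ∑ q : V, (if a ∈ lk A p q then h a p else 0) :=
        sum_congr rfl (fun p _ => sum_comm)
    _ = ∑ a : V, ∑ p : V, ∑ q : V, (if a ∈ lk A p q then h a p else 0) := sum_comm

/-- the edge version -/
lemma dens_edge (hT : Tree0 N b in0 J X) {M : ℝ} (hM : 1 ≤ M) {d0 : ℕ} {z : ℕ → V}
    {Ω : Finset (Fin (N + 2) → V)} {R : (Fin (N + 2) → V) → Finset V}
    (hS : ∀ ω ∈ Ω, Start N b in0 J X A B M d0 (ini N J z ω) (R ω)) :
    ∀ f, ¬ X f → f ≤ 2 * N → ∀ m, f ≤ 2 * m → ∀ H : V → V → ℝ, (∀ x y, 0 ≤ H x y) →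
    ∑ ω ∈ Ω, gr A b in0 m (fun φ => H (φ (ends b f).1) (φ (ends b f).2)) (ini N J z ω) ≤
      M * (Fintype.card V : ℝ) ^ N * ∑ p : V, ∑ q : V, ((lk A p q).card : ℝ) * H p q := by
  classical
  intro f
  induction f using Nat.strong_induction_on with
  | _ f ih =>
    intro hXf hfN m hfm H hH
    have hn0 : (0 : ℝ) ≤ Fintype.card V := Nat.cast_nonneg _
    have hM0 : 0 ≤ M := by linarith
    have hpos : ∀ p q : V, 0 ≤ ((lk A p q).card : ℝ) * H p q :=
      fun p q => mul_nonneg (Nat.cast_nonneg _) (hH p q)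
    have hsum0 : 0 ≤ ∑ p : V, ∑ q : V, ((lk A p q).card : ℝ) * H p q :=
      sum_nonneg (fun p _ => sum_nonneg (fun q _ => hpos p q))
    by_cases hf0 : E0 in0 f
    · -- edge of `T_0`
      have hSf := E0_S0 b in0 hT.dn f hf0
      have hne := (ends_aux b f).2.2
      have step1 : ∑ ω ∈ Ω, gr A b in0 m (fun φ => H (φ (ends b f).1) (φ (ends b f).2))
          (ini N J z ω) ≤ ∑ ω ∈ Ω, H (ini N J z ω (ends b f).1) (ini N J z ω (ends b f).2) := by
        refine sum_le_sum (fun ω _ => ?_)
        refine gr_le_of_depOn A b in0 0 _ (fun φ => hH _ _) ?_ _ m (Nat.zero_le _)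
        intro φ φ' h
        show H (φ _) (φ _) = H (φ' _) (φ' _)
        rw [h _ (Or.inl hSf.1), h _ (Or.inl hSf.2)]
      refine step1.trans ?_
      have hlt1 := S0_lt hT hSf.1
      have hlt2 := S0_lt hT hSf.2
      -- one end in `J`
      have key : ∀ (u v : ℕ), S0 in0 v → u ∈ J → v ∉ J → (∀ ω ∈ Ω, (Fintype.card V : ℝ) ≤
          M * ((lk A (ini N J z ω u) (ini N J z ω v)).card : ℝ)) → ∀ K : V → V → ℝ,
          (∀ x y, 0 ≤ K x y) → ∑ ω ∈ Ω, K (ini N J z ω u) (ini N J z ω v) ≤
          M * (Fintype.card V : ℝ) ^ N * ∑ p : V, ∑ q : V, ((lk A p q).card : ℝ) * K p q := by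
        intro u v hv hu hvJ hheavy K hK
        have hvlt := S0_lt hT hv
        have hKpos : ∀ p q : V, 0 ≤ ((lk A p q).card : ℝ) * K p q :=
          fun p q => mul_nonneg (Nat.cast_nonneg _) (hK p q)
        have hKsum : 0 ≤ ∑ p : V, ∑ q : V, ((lk A p q).card : ℝ) * K p q :=
          sum_nonneg (fun p _ => sum_nonneg (fun q _ => hKpos p q))
        rcases Nat.eq_zero_or_pos (Fintype.card V) with h0 | h0
        · have hemp : IsEmpty V := Fintype.card_eq_zero_iff.1 h0
          have : Ω = ∅ := by
            rw [eq_empty_iff_forall_notMem]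
            intro ω _
            exact hemp.elim (ω ⟨0, by omega⟩)
          rw [this, sum_empty]
          exact mul_nonneg (mul_nonneg hM0 (pow_nonneg hn0 _)) hKsum
        · have hnpos : (0 : ℝ) < Fintype.card V := by exact_mod_cast h0
          have e1 : (Fintype.card V : ℝ) * ∑ ω ∈ Ω, K (ini N J z ω u) (ini N J z ω v)
              ≤ ∑ ω : Fin (N + 2) → V, M * (((lk A (z u) (ω ⟨v, hvlt⟩)).card : ℝ)
                * K (z u) (ω ⟨v, hvlt⟩)) := by
            rw [mul_sum]
            refine (sum_le_sum (fun ω hω => ?_)).trans (sum_le_sum_of_subset_of_nonneg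
              (subset_univ Ω) (fun ω _ _ => mul_nonneg hM0 (hKpos _ _)))
            have h1 := hheavy ω hω
            rw [ini_of_mem hu, ini_of_notMem hvJ hvlt] at h1 ⊢
            calc (Fintype.card V : ℝ) * K (z u) (ω ⟨v, hvlt⟩)
                ≤ (M * ((lk A (z u) (ω ⟨v, hvlt⟩)).card : ℝ)) * K (z u) (ω ⟨v, hvlt⟩) :=
                  mul_le_mul_of_nonneg_right h1 (hK _ _)
              _ = _ := by ring
          rw [sum_coord1 ⟨v, hvlt⟩ (fun q => M * (((lk A (z u) q).card : ℝ) * K (z u) q)),
            ← mul_sum] at e1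
          have e2 : ∑ q : V, ((lk A (z u) q).card : ℝ) * K (z u) q
              ≤ ∑ p : V, ∑ q : V, ((lk A p q).card : ℝ) * K p q :=
            single_le_sum (f := fun p => ∑ q : V, ((lk A p q).card : ℝ) * K p q)
              (fun p _ => sum_nonneg (fun q _ => hKpos p q)) (mem_univ (z u))
          have e3 : (Fintype.card V : ℝ) ^ (N + 1) * (M * ∑ q : V, ((lk A (z u) q).card : ℝ)
              * K (z u) q) ≤ (Fintype.card V : ℝ) * (M * (Fintype.card V : ℝ) ^ N *
                ∑ p : V, ∑ q : V, ((lk A p q).card : ℝ) * K p q) := by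
            calc (Fintype.card V : ℝ) ^ (N + 1) * (M * ∑ q : V, ((lk A (z u) q).card : ℝ)
                * K (z u) q) = (Fintype.card V : ℝ) ^ (N + 1) * M *
                  ∑ q : V, ((lk A (z u) q).card : ℝ) * K (z u) q := by ring
              _ ≤ (Fintype.card V : ℝ) ^ (N + 1) * M *
                  ∑ p : V, ∑ q : V, ((lk A p q).card : ℝ) * K p q :=
                mul_le_mul_of_nonneg_left e2 (mul_nonneg (pow_nonneg hn0 _) hM0)
              _ = _ := by ring
          exact le_of_mul_le_mul_left (e1.trans e3) hnpos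
      by_cases hJ1 : (ends b f).1 ∈ J
      · have hJ2 : (ends b f).2 ∉ J := fun h => hT.jind f ⟨hJ1, h⟩
        exact key _ _ hSf.2 hJ1 hJ2 (fun ω hω => (hS ω hω).heavy f hf0 (Or.inl hJ1)) H hH
      · by_cases hJ2 : (ends b f).2 ∈ J
        · have h1 := key _ _ hSf.1 hJ2 hJ1 (fun ω hω => by
            rw [lk_comm]
            exact (hS ω hω).heavy f hf0 (Or.inr hJ2)) (fun x y => H y x) (fun x y => hH y x)
          refine h1.trans (le_of_eq ?_)
          congr 1
          rw [sum_comm]
          refine sum_congr rfl (fun p _ => sum_congr rfl (fun q _ => ?_))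
          rw [lk_comm]
        · -- both ends free
          have hne' : (⟨(ends b f).1, hlt1⟩ : Fin (N + 2)) ≠ ⟨(ends b f).2, hlt2⟩ := by
            intro h
            exact hne (Fin.mk.inj_iff.1 h)
          calc ∑ ω ∈ Ω, H (ini N J z ω (ends b f).1) (ini N J z ω (ends b f).2)
              ≤ ∑ ω ∈ Ω, ((lk A (ω ⟨(ends b f).1, hlt1⟩) (ω ⟨(ends b f).2, hlt2⟩)).card : ℝ) *
                H (ω ⟨(ends b f).1, hlt1⟩) (ω ⟨(ends b f).2, hlt2⟩) := by
                refine sum_le_sum (fun ω hω => ?_)
                have h1 := (hS ω hω).ne f hf0 hXf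
                rw [ini_of_notMem hJ1 hlt1, ini_of_notMem hJ2 hlt2] at h1 ⊢
                have h2 : (1 : ℝ) ≤ ((lk A (ω ⟨(ends b f).1, hlt1⟩)
                    (ω ⟨(ends b f).2, hlt2⟩)).card : ℝ) := by
                  exact_mod_cast h1.card_pos
                have h3 := hH (ω ⟨(ends b f).1, hlt1⟩) (ω ⟨(ends b f).2, hlt2⟩)
                nlinarith
            _ ≤ ∑ ω : Fin (N + 2) → V, ((lk A (ω ⟨(ends b f).1, hlt1⟩)
                (ω ⟨(ends b f).2, hlt2⟩)).card : ℝ) *
                H (ω ⟨(ends b f).1, hlt1⟩) (ω ⟨(ends b f).2, hlt2⟩) :=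
                sum_le_sum_of_subset_of_nonneg (subset_univ Ω) (fun ω _ _ => hpos _ _)
            _ = (Fintype.card V : ℝ) ^ N * ∑ p : V, ∑ q : V, ((lk A p q).card : ℝ) * H p q :=
                sum_coord2 hne' (fun p q => ((lk A p q).card : ℝ) * H p q)
            _ ≤ M * (Fintype.card V : ℝ) ^ N *
                ∑ p : V, ∑ q : V, ((lk A p q).card : ℝ) * H p q := by
                refine mul_le_mul_of_nonneg_right ?_ hsum0
                have h5 : (0 : ℝ) ≤ (Fintype.card V : ℝ) ^ N := pow_nonneg hn0 _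
                exact le_mul_of_one_le_left h5 hM
    · -- grown edge
      rcases edge_cases f with rfl | ⟨j, hj⟩
      · exact absurd (E0_zero in0) hf0
      · have hb := bs_le b j
        have hj0 : ¬ in0 j := by
          rcases hj with rfl | rfl
          · exact fun h => hf0 ((E0_odd in0).2 h)
          · exact fun h => hf0 ((E0_even in0).2 h)
        have hjN : j < N := by omega
        have hXb : ¬ X (bs b j) := hT.real j hjN hj0
        have hp := p_le b j
        rcases hj with rfl | rfl
        · rw [ends_odd]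
          dsimp only
          have hdep : DepOn {v | S0 in0 v ∨ v < (j + 1) + 2}
              (fun φ : ℕ → V => H (φ (j + 2)) (φ (pA b j))) := by
            intro φ φ' h
            show H (φ _) (φ _) = H (φ' _) (φ' _)
            rw [h _ (Or.inr (by omega)), h _ (Or.inr (by omega))]
          set H' : V → V → ℝ := fun p q => (∑ a ∈ lk A p q, H a p) / ((lk A p q).card : ℝ) with hH'
          have hH'0 : ∀ p q, 0 ≤ H' p q := fun p q =>
            div_nonneg (sum_nonneg (fun a _ => hH a p)) (Nat.cast_nonneg _)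
          have e1 : ∀ ω ∈ Ω, gr A b in0 m (fun φ => H (φ (j + 2)) (φ (pA b j))) (ini N J z ω)
              ≤ gr A b in0 j (fun φ => H' (φ (ends b (bs b j)).1) (φ (ends b (bs b j)).2))
                (ini N J z ω) := by
            intro ω _
            refine (gr_le_of_depOn A b in0 (j + 1) _ (fun φ => hH _ _) hdep _ m
              (by omega)).trans ?_
            rw [gr_succ_out A b in0 hj0]
            refine le_of_eq ?_
            congr 1
            funext φ
            unfold stp
            simp only [Function.update_self, Function.update_of_ne (by omega : pA b j ≠ j + 2)]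
            rfl
          have e3 := ih (bs b j) (by omega) hXb (by omega) j hb H' hH'0
          refine (sum_le_sum e1).trans (e3.trans ?_)
          refine mul_le_mul_of_nonneg_left ?_ (mul_nonneg hM0 (pow_nonneg hn0 _))
          rw [← sum_lk_swap A H]
          exact sum_le_sum (fun p _ => sum_le_sum (fun q _ =>
            card_mul_avg_le (lk A p q) (fun a => H a p) (fun a => hH a p)))
        · rw [ends_even]
          dsimp only
          have hdep : DepOn {v | S0 in0 v ∨ v < (j + 1) + 2}
              (fun φ : ℕ → V => H (φ (j + 2)) (φ (pB b j))) := by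
            intro φ φ' h
            show H (φ _) (φ _) = H (φ' _) (φ' _)
            rw [h _ (Or.inr (by omega)), h _ (Or.inr (by omega))]
          set H' : V → V → ℝ := fun p q => (∑ a ∈ lk A p q, H a q) / ((lk A p q).card : ℝ) with hH'
          have hH'0 : ∀ p q, 0 ≤ H' p q := fun p q =>
            div_nonneg (sum_nonneg (fun a _ => hH a q)) (Nat.cast_nonneg _)
          have e1 : ∀ ω ∈ Ω, gr A b in0 m (fun φ => H (φ (j + 2)) (φ (pB b j))) (ini N J z ω)
              ≤ gr A b in0 j (fun φ => H' (φ (ends b (bs b j)).1) (φ (ends b (bs b j)).2))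
                (ini N J z ω) := by
            intro ω _
            refine (gr_le_of_depOn A b in0 (j + 1) _ (fun φ => hH _ _) hdep _ m
              (by omega)).trans ?_
            rw [gr_succ_out A b in0 hj0]
            refine le_of_eq ?_
            congr 1
            funext φ
            unfold stp
            simp only [Function.update_self, Function.update_of_ne (by omega : pB b j ≠ j + 2)]
            rfl
          have e3 := ih (bs b j) (by omega) hXb (by omega) j hb H' hH'0
          refine (sum_le_sum e1).trans (e3.trans ?_)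
          refine mul_le_mul_of_nonneg_left ?_ (mul_nonneg hM0 (pow_nonneg hn0 _))
          have e2 : ∑ p : V, ∑ q : V, ((lk A p q).card : ℝ) * H p q
              = ∑ p : V, ∑ q : V, ∑ a ∈ lk A p q, H a q := by
            rw [← sum_lk_swap A H, sum_comm]
            refine sum_congr rfl (fun p _ => sum_congr rfl (fun q _ => ?_))
            rw [lk_comm]
          rw [e2]
          exact sum_le_sum (fun p _ => sum_le_sum (fun q _ =>
            card_mul_avg_le (lk A p q) (fun a => H a q) (fun a => hH a q)))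

end Main

theorem dens : DENS_S := by
  intro V _ _ N b in0 J X A B M d0 z Ω R hT _ hM hS i hi hi0 H hH
  have hp := p_le b i
  have hdep : DepOn {v | S0 in0 v ∨ v < (i + 1) + 2}
      (fun φ : ℕ → V => H (φ (i + 2)) (φ (pA b i)) (φ (pB b i))) := by
    intro φ φ' h
    show H (φ _) (φ _) (φ _) = H (φ' _) (φ' _) (φ' _)
    rw [h _ (Or.inr (by omega)), h _ (Or.inr (by omega)), h _ (Or.inr (by omega))]
  set H' : V → V → ℝ := fun p q => (∑ a ∈ lk A p q, H a p q) / ((lk A p q).card : ℝ) with hH'
  have hH'0 : ∀ p q, 0 ≤ H' p q := fun p q =>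
    div_nonneg (sum_nonneg (fun a _ => hH a p q)) (Nat.cast_nonneg _)
  have e1 : ∀ ω ∈ Ω, gr A b in0 N (fun φ => H (φ (i + 2)) (φ (pA b i)) (φ (pB b i)))
      (ini N J z ω) ≤ gr A b in0 i (fun φ => H' (φ (ends b (bs b i)).1)
        (φ (ends b (bs b i)).2)) (ini N J z ω) := by
    intro ω _
    refine (gr_le_of_depOn A b in0 (i + 1) _ (fun φ => hH _ _ _) hdep _ N (by omega)).trans ?_
    rw [gr_succ_out A b in0 hi0]
    refine le_of_eq ?_
    congr 1
    funext φ
    unfold stp
    simp only [Function.update_self, Function.update_of_ne (by omega : pA b i ≠ i + 2),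
      Function.update_of_ne (by omega : pB b i ≠ i + 2)]
    rfl
  have hbi := bs_le b i
  have e3 := dens_edge hT hM hS (bs b i) (hT.real i hi hi0) (by omega) i hbi H' hH'0
  refine (sum_le_sum e1).trans (e3.trans ?_)
  refine mul_le_mul_of_nonneg_left ?_ (mul_nonneg (by linarith) (pow_nonneg (Nat.cast_nonneg _) _))
  exact sum_le_sum (fun p _ => sum_le_sum (fun q _ =>
    card_mul_avg_le (lk A p q) (fun a => H a p q) (fun a => hH a p q)))

end MP_182bbb_co.TT
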