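import Pool.Agent.Lib.MP_182bbb_co.TT.H5.Root0

/-!
# GRB: basic properties of the growth
-/

open Finset

namespace MP_182bbb_co.TT

open MP_182bbb_co.H5

variable {V : Type*} [DecidableEq V] [Fintype V] (A : Finset (Finset V)) (b : ℕ → ℕ)
  (in0 : ℕ → Prop)

lemma gr_zero (F : (ℕ → V) → ℝ) (φ : ℕ → V) : gr A b in0 0 F φ = F φ := rfl

lemma gr_succ_in {m : ℕ} (h : in0 m) (F : (ℕ → V) → ℝ) (φ : ℕ → V) :
    gr A b in0 (m + 1) F φ = gr A b in0 m F φ := by
  rw [gr, if_pos h]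

lemma gr_succ_out {m : ℕ} (h : ¬ in0 m) (F : (ℕ → V) → ℝ) (φ : ℕ → V) :
    gr A b in0 (m + 1) F φ = gr A b in0 m (stp A b m F) φ := by
  rw [gr, if_neg h]

lemma stp_add (i : ℕ) (F F' : (ℕ → V) → ℝ) :
    stp A b i (fun φ => F φ + F' φ) = fun φ => stp A b i F φ + stp A b i F' φ := by
  funext φ
  unfold stp
  rw [sum_add_distrib, add_div]

lemma stp_mul (i : ℕ) (c : ℝ) (F : (ℕ → V) → ℝ) :
    stp A b i (fun φ => c * F φ) = fun φ => c * stp A b i F φ := by
  funext φ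
  unfold stp
  rw [← mul_sum, mul_div_assoc]

lemma gr_add (m : ℕ) : ∀ (F F' : (ℕ → V) → ℝ) (φ0 : ℕ → V),
    gr A b in0 m (fun φ => F φ + F' φ) φ0 = gr A b in0 m F φ0 + gr A b in0 m F' φ0 := by
  induction m with
  | zero => intro F F' φ0; rfl
  | succ m ih =>
    intro F F' φ0
    by_cases h : in0 m
    · rw [gr_succ_in A b in0 h, gr_succ_in A b in0 h, gr_succ_in A b in0 h]
      exact ih F F' φ0
    · rw [gr_succ_out A b in0 h, gr_succ_out A b in0 h, gr_succ_out A b in0 h, stp_add]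
      exact ih _ _ φ0

lemma gr_mul (m : ℕ) : ∀ (c : ℝ) (F : (ℕ → V) → ℝ) (φ0 : ℕ → V),
    gr A b in0 m (fun φ => c * F φ) φ0 = c * gr A b in0 m F φ0 := by
  induction m with
  | zero => intro c F φ0; rfl
  | succ m ih =>
    intro c F φ0
    by_cases h : in0 m
    · rw [gr_succ_in A b in0 h, gr_succ_in A b in0 h]
      exact ih c F φ0
    · rw [gr_succ_out A b in0 h, gr_succ_out A b in0 h, stp_mul]
      exact ih _ _ φ0

lemma stp_mono (i : ℕ) (F F' : (ℕ → V) → ℝ) (φ : ℕ → V)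
    (h : ∀ a ∈ lk A (φ (pA b i)) (φ (pB b i)),
      F (Function.update φ (i + 2) a) ≤ F' (Function.update φ (i + 2) a)) :
    stp A b i F φ ≤ stp A b i F' φ := by
  unfold stp
  exact div_le_div_of_nonneg_right (sum_le_sum h) (Nat.cast_nonneg _)

lemma Supp_update {m : ℕ} (hm : ¬ in0 m) {φ0 φ : ℕ → V} (h : Supp A b in0 m φ0 φ) {a : V}
    (ha : a ∈ lk A (φ (pA b m)) (φ (pB b m))) :
    Supp A b in0 (m + 1) φ0 (Function.update φ (m + 2) a) := by
  obtain ⟨h1, h2⟩ := h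
  constructor
  · intro v hv
    have hvm : v ≠ m + 2 := hv m (by omega) hm
    rw [Function.update_of_ne hvm]
    exact h1 v (fun i hi hi0 => hv i (by omega) hi0)
  · intro i hi hi0
    have hpm := p_le b m
    have hpi := p_le b i
    rcases Nat.lt_succ_iff_lt_or_eq.1 hi with hlt | rfl
    · rw [Function.update_of_ne (by omega : i + 2 ≠ m + 2),
        Function.update_of_ne (by omega : pA b i ≠ m + 2),
        Function.update_of_ne (by omega : pB b i ≠ m + 2)]
      exact h2 i hlt hi0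
    · rw [Function.update_self, Function.update_of_ne (by omega : pA b i ≠ i + 2),
        Function.update_of_ne (by omega : pB b i ≠ i + 2)]
      exact ha

lemma Supp_in {m : ℕ} (hm : in0 m) {φ0 φ : ℕ → V} (h : Supp A b in0 m φ0 φ) :
    Supp A b in0 (m + 1) φ0 φ := by
  obtain ⟨h1, h2⟩ := h
  constructor
  · intro v hv
    exact h1 v (fun i hi hi0 => hv i (by omega) hi0)
  · intro i hi hi0
    rcases Nat.lt_succ_iff_lt_or_eq.1 hi with hlt | rfl
    · exact h2 i hlt hi0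
    · exact absurd hm hi0

lemma gr_mono (m : ℕ) : ∀ (F F' : (ℕ → V) → ℝ) (φ0 : ℕ → V),
    (∀ φ, Supp A b in0 m φ0 φ → F φ ≤ F' φ) → gr A b in0 m F φ0 ≤ gr A b in0 m F' φ0 := by
  induction m with
  | zero =>
    intro F F' φ0 h
    exact h φ0 ⟨fun _ _ => rfl, fun i hi => by omega⟩
  | succ m ih =>
    intro F F' φ0 h
    by_cases hm : in0 m
    · rw [gr_succ_in A b in0 hm, gr_succ_in A b in0 hm]
      exact ih F F' φ0 (fun φ hφ => h φ (Supp_in A b in0 hm hφ))
    · rw [gr_succ_out A b in0 hm, gr_succ_out A b in0 hm]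
      refine ih _ _ φ0 (fun φ hφ => ?_)
      exact stp_mono A b m F F' φ (fun a ha => h _ (Supp_update A b in0 hm hφ ha))

lemma stp_nonneg (i : ℕ) (F : (ℕ → V) → ℝ) (h : ∀ φ, 0 ≤ F φ) (φ : ℕ → V) :
    0 ≤ stp A b i F φ := by
  unfold stp
  exact div_nonneg (sum_nonneg (fun _ _ => h _)) (Nat.cast_nonneg _)

lemma gr_nonneg (m : ℕ) : ∀ (F : (ℕ → V) → ℝ), (∀ φ, 0 ≤ F φ) → ∀ φ0 : ℕ → V,
    0 ≤ gr A b in0 m F φ0 := by
  induction m with
  | zero => intro F h φ0; exact h φ0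
  | succ m ih =>
    intro F h φ0
    by_cases hm : in0 m
    · rw [gr_succ_in A b in0 hm]
      exact ih F h φ0
    · rw [gr_succ_out A b in0 hm]
      exact ih _ (stp_nonneg A b m F h) φ0

/-- a step does not increase a nonnegative function which does not see the new vertex -/
lemma stp_le_self (i : ℕ) (F : (ℕ → V) → ℝ) (φ : ℕ → V) (h0 : 0 ≤ F φ)
    (h : ∀ a, F (Function.update φ (i + 2) a) = F φ) : stp A b i F φ ≤ F φ := by
  unfold stp
  rw [sum_congr rfl (fun a _ => h a), sum_const, nsmul_eq_mul]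
  rcases Nat.eq_zero_or_pos (lk A (φ (pA b i)) (φ (pB b i))).card with hc | hc
  · rw [hc]
    simpa using h0
  · have hc' : (0 : ℝ) < (lk A (φ (pA b i)) (φ (pB b i))).card := by exact_mod_cast hc
    rw [mul_div_assoc, mul_comm, div_mul_cancel₀ _ hc'.ne']

lemma gr_const_le (m : ℕ) (c : ℝ) (hc : 0 ≤ c) (φ0 : ℕ → V) :
    gr A b in0 m (fun _ => c) φ0 ≤ c := by
  induction m generalizing φ0 with
  | zero => exact le_rfl
  | succ m ih =>
    by_cases hm : in0 m
    · rw [gr_succ_in A b in0 hm]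
      exact ih φ0
    · rw [gr_succ_out A b in0 hm]
      refine (gr_mono A b in0 m _ (fun _ => c) φ0 (fun φ _ => ?_)).trans (ih φ0)
      exact stp_le_self A b m (fun _ => c) φ hc (fun _ => rfl)

lemma gr_le_of_depOn (m : ℕ) (F : (ℕ → V) → ℝ) (hF : ∀ φ, 0 ≤ F φ)
    (hdep : DepOn {v | S0 in0 v ∨ v < m + 2} F) (φ0 : ℕ → V) : ∀ m', m ≤ m' →
    gr A b in0 m' F φ0 ≤ gr A b in0 m F φ0 := by
  intro m' hm'
  induction m', hm' using Nat.le_induction with
  | base => exact le_rfl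
  | succ m' hle ih =>
    by_cases hm : in0 m'
    · rw [gr_succ_in A b in0 hm]
      exact ih
    · rw [gr_succ_out A b in0 hm]
      refine (gr_mono A b in0 m' _ F φ0 (fun φ _ => ?_)).trans ih
      refine stp_le_self A b m' F φ (hF φ) (fun a => ?_)
      refine hdep _ _ (fun v hv => ?_)
      rw [Function.update_of_ne]
      rintro rfl
      rcases hv with hv | hv
      · exact hm ((S0_succ in0).1 hv)
      · omega

theorem grb : GRB_S := by
  intro V _ _ A b in0
  exact ⟨gr_mono A b in0, gr_add A b in0, gr_mul A b in0,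
    fun m c φ0 hc => ⟨gr_nonneg A b in0 m _ (fun _ => hc) φ0, gr_const_le A b in0 m c hc φ0⟩,
    fun m m' F φ0 hm hF hdep => gr_le_of_depOn A b in0 m F hF hdep φ0 m' hm⟩

end MP_182bbb_co.TT
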