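import Pool.Agent.Lib.MP_182bbb_co.TT.H5.Dens

/-!
# NOC: the growth avoids collisions with positive probability, up to accidents of type 1
-/

open Finset

namespace MP_182bbb_co.TT

open MP_182bbb_co.H5

variable {V : Type*} [DecidableEq V] [Fintype V] {N : ℕ} {b : ℕ → ℕ} {in0 : ℕ → Prop}
  {J : Finset ℕ} {X : ℕ → Prop} {A B : Finset (Finset V)}

lemma Supp_S0 {m : ℕ} {φ0 φ : ℕ → V} (h : Supp A b in0 m φ0 φ) {v : ℕ} (hv : S0 in0 v) :
    φ v = φ0 v := by
  refine h.1 v (fun i _ hi0 => ?_)
  rintro rfl
  exact hi0 ((S0_succ in0).1 hv)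

/-- all edges grown so far have nonempty lists -/
lemma Supp_nonempty (hT : Tree0 N b in0 J X) {M : ℝ} {d0 : ℕ} {φ0 : ℕ → V} {R : Finset V}
    (hS : Start N b in0 J X A B M d0 φ0 R) {m : ℕ} {φ : ℕ → V} (h : Supp A b in0 m φ0 φ)
    {e : ℕ} (he : e ≤ 2 * m) (hX : ¬ X e) :
    (lk A (φ (ends b e).1) (φ (ends b e).2)).Nonempty := by
  by_cases h0 : E0 in0 e
  · have hs := E0_S0 b in0 hT.dn e h0
    rw [Supp_S0 h hs.1, Supp_S0 h hs.2]
    exact hS.ne e h0 hX
  · rcases edge_cases e with rfl | ⟨j, rfl | rfl⟩
    · exact absurd (E0_zero in0) h0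
    · have hj : ¬ in0 j := fun hh => h0 ((E0_odd in0).2 hh)
      have h1 := h.2 j (by omega) hj
      rw [ends_odd]
      refine ⟨φ (pB b j), ?_⟩
      rw [← mem_lk_rot]
      exact h1
    · have hj : ¬ in0 j := fun hh => h0 ((E0_even in0).2 hh)
      have h1 := h.2 j (by omega) hj
      rw [ends_even]
      refine ⟨φ (pA b j), ?_⟩
      rw [← mem_lk_rot, lk_comm]
      exact h1

lemma left_notMem_lk {G : Finset (Finset V)} (hG : IsUniform 3 G) (x y : V) : x ∉ lk G x y := by
  rw [mem_lk]
  intro h
  exact (ne_of_card_three (hG _ h)).2.1 rfl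

lemma right_notMem_lk {G : Finset (Finset V)} (hG : IsUniform 3 G) (x y : V) : y ∉ lk G x y := by
  rw [mem_lk]
  intro h
  exact (ne_of_card_three (hG _ h)).2.2 rfl

lemma ind_true {P : Prop} (h : P) : ind P = 1 := by unfold ind; rw [if_pos h]
lemma ind_false {P : Prop} (h : ¬ P) : ind P = 0 := by unfold ind; rw [if_neg h]
lemma ind_nonneg (P : Prop) : 0 ≤ ind P := by unfold ind; split_ifs <;> norm_num
lemma ind_le_one (P : Prop) : ind P ≤ 1 := by unfold ind; split_ifs <;> norm_num

lemma ind_mono {P Q : Prop} (h : P → Q) : ind P ≤ ind Q := by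
  by_cases hP : P
  · rw [ind_true hP, ind_true (h hP)]
  · rw [ind_false hP]
    exact ind_nonneg Q

/-- no collision among the placed vertices -/
def NCm (in0 : ℕ → Prop) (R : Finset V) (m : ℕ) (φ : ℕ → V) : Prop :=
  Set.InjOn φ {v | S0 in0 v ∨ v < m + 2} ∧ ∀ v, (S0 in0 v ∨ v < m + 2) → φ v ∉ R

/-- an accident of type 1 for the base edge of triangle `i` -/
def Ac (N : ℕ) (b : ℕ → ℕ) (in0 : ℕ → Prop) (J : Finset ℕ) (A : Finset (Finset V)) (i : ℕ)
    (φ : ℕ → V) : Prop :=
  ∃ v, S0 in0 v ∧ v ∉ J ∧ ¬ isEnd b (top in0 b (bs b i)) v ∧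
      (lk A (φ (pA b i)) (φ (pB b i))).card ≤ 3 * N + 3 ∧
      φ v ∈ lk A (φ (pA b i)) (φ (pB b i))

lemma Ac_update {i m : ℕ} (him : i ≤ m) (hm : ¬ in0 m) (φ : ℕ → V) (a : V)
    (h : Ac N b in0 J A i φ) : Ac N b in0 J A i (Function.update φ (m + 2) a) := by
  obtain ⟨v, h1, h2, h3, h4, h5⟩ := h
  have hp := p_le b i
  refine ⟨v, h1, h2, h3, ?_⟩
  have hv : v ≠ m + 2 := by
    rintro rfl
    exact hm ((S0_succ in0).1 h1)
  rw [Function.update_of_ne hv, Function.update_of_ne (by omega : pA b i ≠ m + 2),
    Function.update_of_ne (by omega : pB b i ≠ m + 2)]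
  exact ⟨h4, h5⟩

/-- the number of forbidden elements of the list of the base edge -/
lemma card_forbidden (hT : Tree0 N b in0 J X) (hN : 2 ≤ N) {s : ℕ} (hs : N + 1 ≤ s)
    (hA : IsUniform 3 A) {R : Finset V} (hR : R.card + J.card ≤ k0 N in0)
    {m : ℕ} (hm : m < N) (hm0 : ¬ in0 m) (φ : ℕ → V)
    (hL : s ≤ (lk A (φ (pA b m)) (φ (pB b m))).card) (hac : ¬ Ac N b in0 J A m φ) :
    ∃ F : Finset V, F.card * (N + 1) ≤ (lk A (φ (pA b m)) (φ (pB b m))).card * (N - 1) ∧
      ∀ a ∈ lk A (φ (pA b m)) (φ (pB b m)), a ∉ F → a ∉ R ∧
        ∀ v, (S0 in0 v ∨ v < m + 2) → φ v ≠ a := by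
  classical
  set L := lk A (φ (pA b m)) (φ (pB b m)) with hLdef
  have hpm := p_le b m
  -- all placed vertices in the list
  set P : Finset ℕ := (range (N + 2)).filter (fun v => (S0 in0 v ∨ v < m + 2) ∧ φ v ∈ L) with hP
  have hPA : pA b m ∉ P := by
    intro h
    rw [hP, mem_filter] at h
    exact left_notMem_lk hA _ _ h.2.2
  have hPB : pB b m ∉ P := by
    intro h
    rw [hP, mem_filter] at h
    exact right_notMem_lk hA _ _ h.2.2
  have hPm : m + 2 ∉ P := by
    intro h
    rw [hP, mem_filter] at h
    rcases h.2.1 with h1 | h1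
    · exact hm0 ((S0_succ in0).1 h1)
    · omega
  have hmain : (R ∪ P.image φ).card ≤ R.card + P.card :=
    (card_union_le _ _).trans (Nat.add_le_add_left card_image_le _)
  have hprop : ∀ a ∈ L, a ∉ R ∪ P.image φ → a ∉ R ∧ ∀ v, (S0 in0 v ∨ v < m + 2) → φ v ≠ a := by
    intro a ha haF
    rw [mem_union, not_or] at haF
    refine ⟨haF.1, fun v hv hva => haF.2 ?_⟩
    rw [mem_image]
    refine ⟨v, ?_, hva⟩
    rw [hP, mem_filter, mem_range]
    refine ⟨?_, hv, hva ▸ ha⟩
    rcases hv with hv | hv
    · exact S0_lt hT hv
    · omega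
  -- real triangles before `m`
  set Gr : Finset ℕ := (range m).filter (fun i => ¬ in0 i) with hGr
  have hGrc : Gr.card + k0 N in0 + 1 ≤ N := by
    have h1 : Gr ∪ ((range N).filter in0) ∪ {m} ⊆ range N := by
      intro x hx
      rw [mem_union, mem_union, hGr, mem_filter, mem_filter, mem_singleton, mem_range,
        mem_range] at hx
      rw [mem_range]
      omega
    have h2 : Disjoint (Gr ∪ ((range N).filter in0)) {m} := by
      rw [disjoint_singleton_right, mem_union, hGr, mem_filter, mem_filter, mem_range]
      rintro (h | h)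
      · omega
      · exact hm0 h.2
    have h3 : Disjoint Gr ((range N).filter in0) := by
      rw [disjoint_left]
      intro x hx hx'
      rw [hGr, mem_filter] at hx
      rw [mem_filter] at hx'
      exact hx.2 hx'.2
    have h4 := card_le_card h1
    rw [card_union_of_disjoint h2, card_union_of_disjoint h3, card_singleton, card_range] at h4
    unfold k0
    omega
  by_cases hbig : 3 * N + 4 ≤ L.card
  · refine ⟨R ∪ P.image φ, ?_, hprop⟩
    have h1 : P ⊆ (((range (N + 2)).erase (m + 2)).erase (pA b m)).erase (pB b m) := by
      intro v hv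
      rw [mem_erase, mem_erase, mem_erase]
      refine ⟨?_, ?_, ?_, ?_⟩
      · rintro rfl
        exact hPB hv
      · rintro rfl
        exact hPA hv
      · rintro rfl
        exact hPm hv
      · rw [hP] at hv
        exact (mem_filter.1 hv).1
    have h2 := card_le_card h1
    have h3 : ((((range (N + 2)).erase (m + 2)).erase (pA b m)).erase (pB b m)).card = N - 1 := by
      rw [card_erase_of_mem, card_erase_of_mem, card_erase_of_mem, card_range]
      · omega
      · rw [mem_range]; omega
      · rw [mem_erase, mem_range]; omega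
      · rw [mem_erase, mem_erase, mem_range]; omega
    obtain ⟨K, rfl⟩ : ∃ K, N = K + 1 := ⟨N - 1, by omega⟩
    simp only [Nat.add_sub_cancel] at h3 ⊢
    have h4 : (R ∪ P.image φ).card ≤ 2 * K := by omega
    calc (R ∪ P.image φ).card * (K + 1 + 1) ≤ (2 * K) * (K + 1 + 1) := Nat.mul_le_mul_right _ h4
      _ = (2 * (K + 1 + 1)) * K := by ring
      _ ≤ L.card * K := Nat.mul_le_mul_right _ (by omega)
  · -- light list, no accident
    refine ⟨R ∪ P.image φ, ?_, hprop⟩
    set e := bs b m with he
    set t := top in0 b e with ht
    set En : Finset ℕ := {pA b m, pB b m} with hEn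
    set Et : Finset ℕ := {(ends b t).1, (ends b t).2} with hEt
    have hEnc : En.card = 2 := card_pair hpm.2.2
    have hEtc : Et.card = 2 := card_pair (ends_aux b t).2.2
    have hsub : En.filter (fun v => S0 in0 v) ⊆ Et := by
      intro v hv
      rw [mem_filter, hEn, mem_insert, mem_singleton] at hv
      have h1 : isEnd b e v := hv.1
      have h2 := isEnd_top b in0 hT.dn e v h1 hv.2
      rw [hEt, mem_insert, mem_singleton]
      exact h2
    have hPsub : P ⊆ (J ∪ (Et \ En)) ∪ ((Gr.image (fun i => i + 2)) \ En) := by
      intro v hv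
      have hv' := hv
      rw [hP, mem_filter] at hv
      have hvEn : v ∉ En := by
        rw [hEn, mem_insert, mem_singleton]
        rintro (rfl | rfl)
        · exact hPA hv'
        · exact hPB hv'
      rw [mem_union, mem_union, mem_sdiff, mem_sdiff]
      by_cases hv0 : S0 in0 v
      · left
        by_cases hvJ : v ∈ J
        · exact Or.inl hvJ
        · right
          refine ⟨?_, hvEn⟩
          by_contra hvt
          apply hac
          refine ⟨v, hv0, hvJ, ?_, by rw [← hLdef]; omega, hv.2.2⟩
          intro hend
          apply hvt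
          rw [hEt, mem_insert, mem_singleton]
          exact hend
      · right
        refine ⟨?_, hvEn⟩
        have hvm : v < m + 2 := by
          rcases hv.2.1 with h | h
          · exact absurd h hv0
          · exact h
        have hv2 : 2 ≤ v := by
          by_contra h
          exact hv0 (Or.inl (by omega))
        rw [mem_image]
        refine ⟨v - 2, ?_, by omega⟩
        rw [hGr, mem_filter, mem_range]
        refine ⟨by omega, fun h => hv0 ?_⟩
        right
        exact ⟨v - 2, h, by omega⟩
    have hc1 := card_le_card hPsub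
    have hc2 := card_union_le (J ∪ (Et \ En)) ((Gr.image (fun i => i + 2)) \ En)
    have hc3 := card_union_le J (Et \ En)
    -- the grown ends of the base edge
    have hgrown : En.filter (fun v => ¬ S0 in0 v) ⊆ Gr.image (fun i => i + 2) := by
      intro v hv
      rw [mem_filter, hEn, mem_insert, mem_singleton] at hv
      have hv2 : 2 ≤ v := by
        by_contra h
        exact hv.2 (Or.inl (by omega))
      have hvm : v < m + 2 := by
        have h1 := hv.1
        omega
      rw [mem_image]
      refine ⟨v - 2, ?_, by omega⟩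
      rw [hGr, mem_filter, mem_range]
      refine ⟨by omega, fun h => hv.2 ?_⟩
      right
      exact ⟨v - 2, h, by omega⟩
    have hc4 : ((Gr.image (fun i => i + 2)) \ En).card + (En.filter (fun v => ¬ S0 in0 v)).card
        ≤ Gr.card := by
      have hdis : Disjoint ((Gr.image (fun i => i + 2)) \ En) (En.filter (fun v => ¬ S0 in0 v)) := by
        rw [disjoint_left]
        intro x hx hx'
        rw [mem_sdiff] at hx
        rw [mem_filter] at hx'
        exact hx.2 hx'.1
      rw [← card_union_of_disjoint hdis]
      refine (card_le_card ?_).trans (card_image_le (s := Gr) (f := fun i => i + 2))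
      intro x hx
      rw [mem_union] at hx
      rcases hx with hx | hx
      · exact (mem_sdiff.1 hx).1
      · exact hgrown hx
    have hc5 : (Et \ En).card + (En.filter (fun v => S0 in0 v)).card ≤ 2 := by
      have hdis : Disjoint (Et \ En) (En.filter (fun v => S0 in0 v)) := by
        rw [disjoint_left]
        intro x hx hx'
        rw [mem_sdiff] at hx
        rw [mem_filter] at hx'
        exact hx.2 hx'.1
      rw [← card_union_of_disjoint hdis, ← hEtc]
      refine card_le_card ?_
      intro x hx
      rw [mem_union] at hx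
      rcases hx with hx | hx
      · exact (mem_sdiff.1 hx).1
      · exact hsub hx
    have hc6 : (En.filter (fun v => S0 in0 v)).card + (En.filter (fun v => ¬ S0 in0 v)).card
        = En.card := card_filter_add_card_filter_not _
    obtain ⟨K, rfl⟩ : ∃ K, N = K + 1 := ⟨N - 1, by omega⟩
    simp only [Nat.add_sub_cancel]
    have h4 : (R ∪ P.image φ).card ≤ K := by omega
    calc (R ∪ P.image φ).card * (K + 1 + 1) ≤ K * (K + 1 + 1) := Nat.mul_le_mul_right _ h4
      _ = (K + 1 + 1) * K := by ring
      _ ≤ L.card * K := Nat.mul_le_mul_right _ (by omega)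

theorem noc : NOC_S := by
  classical
  intro V _ _ N s b in0 J X A B M d0 φ0 R hN hs hT hA hcore hS
  set c : ℝ := 2 / (N + 1) with hc
  have hNpos : (0 : ℝ) < N + 1 := by positivity
  have hc0 : 0 ≤ c := by positivity
  have hc1 : c ≤ 1 := by
    rw [hc, div_le_one hNpos]
    have : (2 : ℝ) ≤ N := by exact_mod_cast hN
    linarith
  have key : ∀ m ≤ N, c ^ m ≤ gr A b in0 m (fun φ => ind (NCm in0 R m φ ∨
      ∃ i < m, ¬ in0 i ∧ Ac N b in0 J A i φ)) φ0 := by
    intro m
    induction m with
    | zero =>
      intro _
      rw [pow_zero, gr_zero, ind_true]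
      left
      constructor
      · intro x hx y hy hxy
        have h2 : ∀ v, (S0 in0 v ∨ v < 0 + 2) → S0 in0 v := by
          rintro v (h | h)
          · exact h
          · exact Or.inl (by omega)
        exact hS.inj (h2 x hx) (h2 y hy) hxy
      · intro v hv
        refine hS.avoid v ?_
        rcases hv with h | h
        · exact h
        · exact Or.inl (by omega)
    | succ m ih =>
      intro hm
      have ih' := ih (by omega)
      have hcm : c ^ (m + 1) ≤ c * gr A b in0 m (fun φ => ind (NCm in0 R m φ ∨
          ∃ i < m, ¬ in0 i ∧ Ac N b in0 J A i φ)) φ0 := by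
        rw [pow_succ, mul_comm]
        exact mul_le_mul_of_nonneg_left ih' hc0
      by_cases hin : in0 m
      · rw [gr_succ_in A b in0 hin]
        refine hcm.trans ?_
        have h0 := gr_nonneg A b in0 m (fun φ => ind (NCm in0 R m φ ∨
          ∃ i < m, ¬ in0 i ∧ Ac N b in0 J A i φ)) (fun φ => ind_nonneg _) φ0
        refine (mul_le_of_le_one_left h0 hc1).trans ?_
        refine gr_mono A b in0 m _ _ φ0 (fun φ _ => ind_mono ?_)
        rintro (⟨h1, h2⟩ | ⟨i, hi, h1, h2⟩)
        · left
          have h3 : ∀ v, (S0 in0 v ∨ v < m + 1 + 2) → (S0 in0 v ∨ v < m + 2) := by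
            rintro v (h | h)
            · exact Or.inl h
            · by_cases hv : v = m + 2
              · left
                rw [hv]
                exact (S0_succ in0).2 hin
              · right
                omega
          exact ⟨fun x hx y hy hxy => h1 (h3 x hx) (h3 y hy) hxy, fun v hv => h2 v (h3 v hv)⟩
        · right
          exact ⟨i, by omega, h1, h2⟩
      · rw [gr_succ_out A b in0 hin]
        refine hcm.trans ?_
        rw [← gr_mul]
        refine gr_mono A b in0 m _ _ φ0 (fun φ hφ => ?_)
        set L := lk A (φ (pA b m)) (φ (pB b m)) with hL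
        have hLne : L.Nonempty := Supp_nonempty hT hS hφ (bs_le b m) (hT.real m (by omega) hin)
        have hLs : s ≤ L.card := hcore _ _ hLne
        have hLpos : (0 : ℝ) < L.card := by
          have : 0 < L.card := hLne.card_pos
          exact_mod_cast this
        have hall : (∀ a ∈ L, (NCm in0 R (m + 1) (Function.update φ (m + 2) a) ∨
            ∃ i < m + 1, ¬ in0 i ∧ Ac N b in0 J A i (Function.update φ (m + 2) a))) →
            c * ind (NCm in0 R m φ ∨ ∃ i < m, ¬ in0 i ∧ Ac N b in0 J A i φ) ≤
            stp A b m (fun φ => ind (NCm in0 R (m + 1) φ ∨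
              ∃ i < m + 1, ¬ in0 i ∧ Ac N b in0 J A i φ)) φ := by
          intro h
          unfold stp
          rw [← hL, sum_congr rfl (fun a ha => ind_true (h a ha)), sum_const, nsmul_eq_mul,
            mul_one, div_self hLpos.ne']
          have h1 := ind_le_one (NCm in0 R m φ ∨ ∃ i < m, ¬ in0 i ∧ Ac N b in0 J A i φ)
          have h2 := ind_nonneg (NCm in0 R m φ ∨ ∃ i < m, ¬ in0 i ∧ Ac N b in0 J A i φ)
          nlinarith
        by_cases hQ : NCm in0 R m φ ∨ ∃ i < m, ¬ in0 i ∧ Ac N b in0 J A i φ
        · rcases hQ with hQ | ⟨i, hi, h1, h2⟩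
          · by_cases hac : Ac N b in0 J A m φ
            · refine hall (fun a _ => Or.inr ⟨m, by omega, hin, ?_⟩)
              exact Ac_update le_rfl hin φ a hac
            · obtain ⟨F, hF1, hF2⟩ := card_forbidden hT hN hs hA hS.cR (by omega : m < N) hin φ
                hLs hac
              rw [ind_true (Or.inl hQ), mul_one]
              have hgood : ∀ a ∈ L, a ∉ F → NCm in0 R (m + 1) (Function.update φ (m + 2) a) := by
                intro a ha haF
                obtain ⟨haR, haφ⟩ := hF2 a ha haF
                have hupd : ∀ v, (S0 in0 v ∨ v < m + 1 + 2) → v ≠ m + 2 →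
                    (S0 in0 v ∨ v < m + 2) := by
                  rintro v (h | h) hv
                  · exact Or.inl h
                  · exact Or.inr (by omega)
                constructor
                · intro x hx y hy hxy
                  by_cases hx2 : x = m + 2
                  · by_cases hy2 : y = m + 2
                    · rw [hx2, hy2]
                    · exfalso
                      rw [hx2, Function.update_self, Function.update_of_ne hy2] at hxy
                      exact haφ y (hupd y hy hy2) hxy.symm
                  · by_cases hy2 : y = m + 2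
                    · exfalso
                      rw [hy2, Function.update_self, Function.update_of_ne hx2] at hxy
                      exact haφ x (hupd x hx hx2) hxy
                    · rw [Function.update_of_ne hx2, Function.update_of_ne hy2] at hxy
                      exact hQ.1 (hupd x hx hx2) (hupd y hy hy2) hxy
                · intro v hv
                  by_cases hv2 : v = m + 2
                  · rw [hv2, Function.update_self]
                    exact haR
                  · rw [Function.update_of_ne hv2]
                    exact hQ.2 v (hupd v hv hv2)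
              unfold stp
              rw [← hL, le_div_iff₀ hLpos]
              have h3 : ((L \ F).card : ℝ) ≤ ∑ a ∈ L, ind (NCm in0 R (m + 1)
                  (Function.update φ (m + 2) a) ∨ ∃ i < m + 1, ¬ in0 i ∧
                    Ac N b in0 J A i (Function.update φ (m + 2) a)) := by
                calc ((L \ F).card : ℝ) = ∑ a ∈ L \ F, (1 : ℝ) := by
                      rw [sum_const, nsmul_eq_mul, mul_one]
                  _ ≤ ∑ a ∈ L \ F, ind (NCm in0 R (m + 1) (Function.update φ (m + 2) a) ∨
                      ∃ i < m + 1, ¬ in0 i ∧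
                        Ac N b in0 J A i (Function.update φ (m + 2) a)) := by
                      refine sum_le_sum (fun a ha => ?_)
                      rw [mem_sdiff] at ha
                      rw [ind_true (Or.inl (hgood a ha.1 ha.2))]
                  _ ≤ _ := sum_le_sum_of_subset_of_nonneg sdiff_subset
                      (fun a _ _ => ind_nonneg _)
              refine le_trans ?_ h3
              have h4 : L.card ≤ (L \ F).card + F.card := by
                have := card_le_card (subset_union_right : L ⊆ F ∪ L)
                have h5 := le_card_sdiff F L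
                omega
              have h5 : (F.card : ℝ) * (N + 1) ≤ L.card * (N - 1) := by
                have h6 : ((N - 1 : ℕ) : ℝ) = (N : ℝ) - 1 := by
                  rw [Nat.cast_sub (by omega)]
                  simp
                rw [← h6]
                exact_mod_cast hF1
              have h6 : (L.card : ℝ) ≤ (L \ F).card + F.card := by exact_mod_cast h4
              rw [hc, div_mul_eq_mul_div, div_le_iff₀ hNpos]
              nlinarith
          · refine hall (fun a _ => Or.inr ⟨i, by omega, h1, ?_⟩)
            exact Ac_update (by omega) hin φ a h2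
        · rw [ind_false hQ, mul_zero]
          exact stp_nonneg A b m _ (fun φ => ind_nonneg _) φ
  refine (key N le_rfl).trans (gr_mono A b in0 N _ _ φ0 (fun φ _ => ind_mono ?_))
  rintro (⟨h1, h2⟩ | ⟨i, hi, h1, h2⟩)
  · left
    constructor
    · intro x hx y hy hxy
      rw [Set.mem_Iic] at hx hy
      exact h1 (Or.inr (by omega)) (Or.inr (by omega)) hxy
    · intro v hv
      exact h2 v (Or.inr (by omega))
  · right
    exact ⟨i, hi, h1, h2⟩

end MP_182bbb_co.TT
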