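import Pool.Agent.Lib.MP_182bbb_co.TT.H5.Tree

/-!
# ROOT: the coded 2-tree seen from an arbitrary edge
-/

open Finset

namespace MP_182bbb_co.TT

open MP_182bbb_co.H5

lemma beh_zero (b : ℕ → ℕ) (f : ℕ) : beh b 0 f ↔ f = 0 := by rw [beh]

lemma beh_odd (b : ℕ → ℕ) (i f : ℕ) : beh b (2 * i + 1) f ↔ f = 2 * i + 1 ∨ beh b (bs b i) f := by
  rw [beh]
  have h1 : 2 * i / 2 = i := by omega
  rw [h1]

lemma beh_even (b : ℕ → ℕ) (i f : ℕ) :
    beh b (2 * i + 2) f ↔ f = 2 * i + 2 ∨ beh b (bs b i) f := by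
  rw [beh]
  have h1 : (2 * i + 1) / 2 = i := by omega
  rw [h1]

lemma beh_refl (b : ℕ → ℕ) (e : ℕ) : beh b e e := by
  rcases e with _ | e
  · rw [beh_zero]
  · rw [beh]
    exact Or.inl rfl

lemma beh_le (b : ℕ → ℕ) : ∀ e f, beh b e f → f ≤ e := by
  intro e
  induction e using Nat.strong_induction_on with
  | _ e ih =>
    intro f hf
    rcases Nat.eq_zero_or_pos e with rfl | he
    · rw [beh_zero] at hf
      omega
    · obtain ⟨i, hi⟩ : ∃ i, e = 2 * i + 1 ∨ e = 2 * i + 2 := ⟨(e - 1) / 2, by omega⟩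
      have hb := bs_le b i
      rcases hi with rfl | rfl
      · rw [beh_odd] at hf
        rcases hf with hf | hf
        · omega
        · have := ih (bs b i) (by omega) f hf
          omega
      · rw [beh_even] at hf
        rcases hf with hf | hf
        · omega
        · have := ih (bs b i) (by omega) f hf
          omega

lemma not_beh_of_lt (b : ℕ → ℕ) {e f : ℕ} (h : e < f) : ¬ beh b e f := by
  intro hf
  have := beh_le b e f hf
  omega

/-- far from the top triangle nothing changes when the root moves by one edge -/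
lemma beh_step (b : ℕ → ℕ) {e j : ℕ} (he : e = 2 * j + 1 ∨ e = 2 * j + 2) {f : ℕ} (hf : f ≠ e) :
    beh b e f ↔ beh b (bs b j) f := by
  rcases he with rfl | rfl
  · rw [beh_odd]
    simp [hf]
  · rw [beh_even]
    simp [hf]

section Step

variable (b : ℕ → ℕ) {e j : ℕ} (he : e = 2 * j + 1 ∨ e = 2 * j + 2)
include he

lemma beh_odd_step {i : ℕ} (hi : i ≠ j) :
    beh b e (2 * i + 1) ↔ beh b (bs b j) (2 * i + 1) := beh_step b he (by omega)

lemma beh_even_step {i : ℕ} (hi : i ≠ j) :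
    beh b e (2 * i + 2) ↔ beh b (bs b j) (2 * i + 2) := beh_step b he (by omega)

lemma en_step {i : ℕ} (hi : i ≠ j) : en b e i = en b (bs b j) i := by
  unfold en
  rw [propext (beh_odd_step b he hi), propext (beh_even_step b he hi)]

lemma nv_step {i : ℕ} (hi : i ≠ j) : nv b e i = nv b (bs b j) i := by
  unfold nv
  rw [propext (beh_odd_step b he hi), propext (beh_even_step b he hi)]

lemma ch1_step {i : ℕ} (hi : i ≠ j) : ch1 b e i = ch1 b (bs b j) i := by
  unfold ch1
  rw [propext (beh_odd_step b he hi), propext (beh_even_step b he hi)]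

lemma ch2_step {i : ℕ} (hi : i ≠ j) : ch2 b e i = ch2 b (bs b j) i := by
  unfold ch2
  rw [propext (beh_odd_step b he hi), propext (beh_even_step b he hi)]

end Step

/-- values when `e` is in front of triangle `i` -/
lemma front (b : ℕ → ℕ) {e i : ℕ} (h1 : ¬ beh b e (2 * i + 1)) (h2 : ¬ beh b e (2 * i + 2)) :
    en b e i = bs b i ∧ nv b e i = i + 2 ∧ ch1 b e i = 2 * i + 1 ∧ ch2 b e i = 2 * i + 2 := by
  unfold en nv ch1 ch2
  simp [h1, h2]

lemma front_of_le (b : ℕ → ℕ) {e i : ℕ} (h : e ≤ 2 * i) :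
    en b e i = bs b i ∧ nv b e i = i + 2 ∧ ch1 b e i = 2 * i + 1 ∧ ch2 b e i = 2 * i + 2 :=
  front b (not_beh_of_lt b (by omega)) (not_beh_of_lt b (by omega))

lemma not_beh_both (b : ℕ → ℕ) : ∀ e i, beh b e (2 * i + 1) → ¬ beh b e (2 * i + 2) := by
  intro e
  induction e using Nat.strong_induction_on with
  | _ e ih =>
    intro i h1 h2
    have hle := beh_le b _ _ h2
    obtain ⟨j, hj⟩ : ∃ j, e = 2 * j + 1 ∨ e = 2 * j + 2 := ⟨(e - 1) / 2, by omega⟩
    have hb := bs_le b j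
    by_cases hij : i = j
    · subst hij
      rcases hj with rfl | rfl
      · omega
      · rw [beh_step b (Or.inr rfl) (by omega)] at h1
        exact not_beh_of_lt b (by omega) h1
    · rw [beh_odd_step b hj hij] at h1
      rw [beh_even_step b hj hij] at h2
      exact ih (bs b j) (by omega) i h1 h2

lemma back_odd (b : ℕ → ℕ) {e i : ℕ} (h1 : beh b e (2 * i + 1)) :
    en b e i = 2 * i + 1 ∧ nv b e i = pB b i ∧ ch1 b e i = bs b i ∧ ch2 b e i = 2 * i + 2 := by
  have h2 := not_beh_both b e i h1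
  unfold en nv ch1 ch2
  simp [h1]

lemma back_even (b : ℕ → ℕ) {e i : ℕ} (h1 : beh b e (2 * i + 2)) :
    en b e i = 2 * i + 2 ∧ nv b e i = pA b i ∧ ch1 b e i = bs b i ∧ ch2 b e i = 2 * i + 1 := by
  have h2 : ¬ beh b e (2 * i + 1) := fun h => not_beh_both b e i h h1
  unfold en nv ch1 ch2
  simp [h1, h2]

lemma sum_edges_zero (N : ℕ) (f : ℕ → ℕ) :
    ∑ x ∈ range (2 * N + 1), f x = f 0 + ∑ i ∈ range N, (f (2 * i + 1) + f (2 * i + 2)) := by
  induction N with
  | zero => simp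
  | succ N ih =>
    rw [show 2 * (N + 1) + 1 = (2 * N + 1) + 1 + 1 by ring, sum_range_succ, sum_range_succ, ih,
      sum_range_succ]
    rw [show 2 * N + 1 + 1 = 2 * N + 2 by ring]
    ring

lemma sum_verts_zero (N : ℕ) (w : ℕ → ℕ) :
    ∑ v ∈ range (N + 2), w v = w 0 + w 1 + ∑ i ∈ range N, w (i + 2) := by
  induction N with
  | zero => simp [sum_range_succ]
  | succ N ih =>
    rw [show N + 1 + 2 = (N + 2) + 1 by ring, sum_range_succ, ih, sum_range_succ]
    ring

lemma sum_edges (b : ℕ → ℕ) (N : ℕ) (f : ℕ → ℕ) : ∀ e ≤ 2 * N,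
    ∑ x ∈ range (2 * N + 1), f x = f e + ∑ i ∈ range N, (f (ch1 b e i) + f (ch2 b e i)) := by
  intro e
  induction e using Nat.strong_induction_on with
  | _ e ih =>
    intro he
    rcases Nat.eq_zero_or_pos e with rfl | hpos
    · rw [sum_edges_zero]
      congr 1
      refine sum_congr rfl (fun i _ => ?_)
      obtain ⟨_, _, h3, h4⟩ := front_of_le b (e := 0) (i := i) (by omega)
      rw [h3, h4]
    · obtain ⟨j, hj⟩ : ∃ j, e = 2 * j + 1 ∨ e = 2 * j + 2 := ⟨(e - 1) / 2, by omega⟩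
      have hb := bs_le b j
      have hjN : j ∈ range N := by rw [mem_range]; omega
      have hIH := ih (bs b j) (by omega) (by omega)
      rw [hIH, ← add_sum_erase _ _ hjN, ← add_sum_erase _ _ hjN]
      have hsum : ∑ x ∈ (range N).erase j, (f (ch1 b (bs b j) x) + f (ch2 b (bs b j) x))
          = ∑ x ∈ (range N).erase j, (f (ch1 b e x) + f (ch2 b e x)) := by
        refine sum_congr rfl (fun i hi => ?_)
        rw [ch1_step b hj (mem_erase.1 hi).1, ch2_step b hj (mem_erase.1 hi).1]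
      rw [hsum]
      obtain ⟨_, _, h3, h4⟩ := front_of_le b (e := bs b j) (i := j) hb
      rw [h3, h4]
      rcases hj with rfl | rfl
      · obtain ⟨_, _, h5, h6⟩ := back_odd b (beh_refl b (2 * j + 1))
        rw [h5, h6]
        ring
      · obtain ⟨_, _, h5, h6⟩ := back_even b (beh_refl b (2 * j + 2))
        rw [h5, h6]
        ring

lemma sum_verts (b : ℕ → ℕ) (N : ℕ) (w : ℕ → ℕ) : ∀ e ≤ 2 * N,
    ∑ v ∈ range (N + 2), w v
      = w (ends b e).1 + w (ends b e).2 + ∑ i ∈ range N, w (nv b e i) := by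
  intro e
  induction e using Nat.strong_induction_on with
  | _ e ih =>
    intro he
    rcases Nat.eq_zero_or_pos e with rfl | hpos
    · rw [sum_verts_zero, ends_zero]
      congr 1
      refine sum_congr rfl (fun i _ => ?_)
      obtain ⟨_, h2, _, _⟩ := front_of_le b (e := 0) (i := i) (by omega)
      rw [h2]
    · obtain ⟨j, hj⟩ : ∃ j, e = 2 * j + 1 ∨ e = 2 * j + 2 := ⟨(e - 1) / 2, by omega⟩
      have hb := bs_le b j
      have hjN : j ∈ range N := by rw [mem_range]; omega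
      have hIH := ih (bs b j) (by omega) (by omega)
      rw [hIH, ← add_sum_erase _ _ hjN, ← add_sum_erase _ _ hjN]
      have hsum : ∑ x ∈ (range N).erase j, w (nv b (bs b j) x)
          = ∑ x ∈ (range N).erase j, w (nv b e x) := by
        refine sum_congr rfl (fun i hi => ?_)
        rw [nv_step b hj (mem_erase.1 hi).1]
      rw [hsum]
      obtain ⟨_, h2, _, _⟩ := front_of_le b (e := bs b j) (i := j) hb
      rw [h2]
      rcases hj with rfl | rfl
      · obtain ⟨_, h5, _, _⟩ := back_odd b (beh_refl b (2 * j + 1))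
        rw [h5, ends_fst_odd, ends_snd_odd]
        unfold pA pB
        ring
      · obtain ⟨_, h5, _, _⟩ := back_even b (beh_refl b (2 * j + 2))
        rw [h5, ends_fst_even, ends_snd_even]
        unfold pA pB
        ring

lemma tri_cases (b : ℕ → ℕ) (e i : ℕ) :
    (en b e i = bs b i ∧ nv b e i = i + 2 ∧ ch1 b e i = 2 * i + 1 ∧ ch2 b e i = 2 * i + 2) ∨
    (en b e i = 2 * i + 1 ∧ nv b e i = pB b i ∧ ch1 b e i = bs b i ∧ ch2 b e i = 2 * i + 2) ∨
    (en b e i = 2 * i + 2 ∧ nv b e i = pA b i ∧ ch1 b e i = bs b i ∧ ch2 b e i = 2 * i + 1) := by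
  by_cases h1 : beh b e (2 * i + 1)
  · exact Or.inr (Or.inl (back_odd b h1))
  · by_cases h2 : beh b e (2 * i + 2)
    · exact Or.inr (Or.inr (back_even b h2))
    · exact Or.inl (front b h1 h2)

lemma tri_edges (b : ℕ → ℕ) (e i : ℕ) :
    ({en b e i, ch1 b e i, ch2 b e i} : Finset ℕ) = {bs b i, 2 * i + 1, 2 * i + 2} := by
  rcases tri_cases b e i with ⟨h1, _, h3, h4⟩ | ⟨h1, _, h3, h4⟩ | ⟨h1, _, h3, h4⟩
  · rw [h1, h3, h4]
  · rw [h1, h3, h4]
    ext x
    simp only [mem_insert, mem_singleton]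
    tauto
  · rw [h1, h3, h4]
    ext x
    simp only [mem_insert, mem_singleton]
    tauto

lemma ends_bs (b : ℕ → ℕ) (i : ℕ) : ends b (bs b i) = (pA b i, pB b i) := rfl

lemma tri_verts (b : ℕ → ℕ) (e i : ℕ) :
    ({nv b e i, (ends b (en b e i)).1, (ends b (en b e i)).2} : Finset ℕ)
      = {i + 2, pA b i, pB b i} := by
  rcases tri_cases b e i with ⟨h1, h2, _, _⟩ | ⟨h1, h2, _, _⟩ | ⟨h1, h2, _, _⟩
  · rw [h1, h2, ends_bs]
  · rw [h1, h2, ends_odd]
    ext x
    simp only [mem_insert, mem_singleton]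
    tauto
  · rw [h1, h2, ends_even]
    ext x
    simp only [mem_insert, mem_singleton]
    tauto

lemma tri_ends (b : ℕ → ℕ) (e i : ℕ) :
    ∃ p q, (ends b (en b e i) = (p, q) ∨ ends b (en b e i) = (q, p)) ∧
    (ends b (ch1 b e i) = (nv b e i, p) ∨ ends b (ch1 b e i) = (p, nv b e i)) ∧
    (ends b (ch2 b e i) = (nv b e i, q) ∨ ends b (ch2 b e i) = (q, nv b e i)) := by
  rcases tri_cases b e i with ⟨h1, h2, h3, h4⟩ | ⟨h1, h2, h3, h4⟩ | ⟨h1, h2, h3, h4⟩
  · refine ⟨pA b i, pB b i, ?_, ?_, ?_⟩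
    · rw [h1, ends_bs]
      exact Or.inl rfl
    · rw [h3, h2, ends_odd]
      exact Or.inl rfl
    · rw [h4, h2, ends_even]
      exact Or.inl rfl
  · refine ⟨pA b i, i + 2, ?_, ?_, ?_⟩
    · rw [h1, ends_odd]
      exact Or.inr rfl
    · rw [h3, h2, ends_bs]
      exact Or.inr rfl
    · rw [h4, h2, ends_even]
      exact Or.inr rfl
  · refine ⟨pB b i, i + 2, ?_, ?_, ?_⟩
    · rw [h1, ends_even]
      exact Or.inr rfl
    · rw [h3, h2, ends_bs]
      exact Or.inl rfl
    · rw [h4, h2, ends_odd]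
      exact Or.inr rfl

theorem root : ROOT_S := by
  intro b
  exact ⟨beh_refl b, beh_le b, fun N e f he => sum_edges b N f e he,
    fun N e w he => sum_verts b N w e he, tri_edges b, tri_verts b, tri_ends b⟩

end MP_182bbb_co.TT
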