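import Pool.Agent.Lib.MP_182bbb_co.TT.H5.Root

/-!
# ROOT0: the coded 2-tree seen from an edge, and the subtree `T_0`
-/

open Finset

namespace MP_182bbb_co.TT

open MP_182bbb_co.H5

variable (b : ℕ → ℕ) (in0 : ℕ → Prop)

lemma S0_succ {i : ℕ} : S0 in0 (i + 2) ↔ in0 i := by
  unfold S0
  constructor
  · rintro (h | ⟨j, hj, h⟩)
    · omega
    · have : i = j := by omega
      exact this ▸ hj
  · intro h
    exact Or.inr ⟨i, h, rfl⟩

lemma E0_zero : E0 in0 0 := Or.inl rfl

lemma E0_odd {i : ℕ} : E0 in0 (2 * i + 1) ↔ in0 i := by
  unfold E0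
  constructor
  · rintro (h | ⟨j, hj, h | h⟩)
    · omega
    · have : i = j := by omega
      exact this ▸ hj
    · omega
  · intro h
    exact Or.inr ⟨i, h, Or.inl rfl⟩

lemma E0_even {i : ℕ} : E0 in0 (2 * i + 2) ↔ in0 i := by
  unfold E0
  constructor
  · rintro (h | ⟨j, hj, h | h⟩)
    · omega
    · omega
    · have : i = j := by omega
      exact this ▸ hj
  · intro h
    exact Or.inr ⟨i, h, Or.inr rfl⟩

lemma st_zero (i : ℕ) : st in0 b i 0 = 0 := by rw [st]

open Classical in
lemma st_odd (i j : ℕ) : st in0 b i (2 * j + 1) =
    if 2 * j + 1 ≤ 2 * i ∨ in0 j then 2 * j + 1 else st in0 b i (bs b j) := by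
  rw [st]
  have h1 : 2 * j / 2 = j := by omega
  rw [h1]

open Classical in
lemma st_even (i j : ℕ) : st in0 b i (2 * j + 2) =
    if 2 * j + 2 ≤ 2 * i ∨ in0 j then 2 * j + 2 else st in0 b i (bs b j) := by
  rw [st]
  have h1 : (2 * j + 1) / 2 = j := by omega
  rw [h1]

/-- case analysis on the number of an edge -/
lemma edge_cases (e : ℕ) : e = 0 ∨ ∃ i, e = 2 * i + 1 ∨ e = 2 * i + 2 := by
  rcases Nat.eq_zero_or_pos e with h | h
  · exact Or.inl h
  · exact Or.inr ⟨(e - 1) / 2, by omega⟩

lemma st_of_le (i e : ℕ) (h : e ≤ 2 * i) : st in0 b i e = e := by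
  rcases edge_cases e with rfl | ⟨j, rfl | rfl⟩
  · exact st_zero b in0 i
  · rw [st_odd, if_pos (Or.inl h)]
  · rw [st_even, if_pos (Or.inl h)]

lemma st_of_E0 (i e : ℕ) (h : E0 in0 e) : st in0 b i e = e := by
  rcases edge_cases e with rfl | ⟨j, rfl | rfl⟩
  · exact st_zero b in0 i
  · rw [E0_odd] at h
    rw [st_odd, if_pos (Or.inr h)]
  · rw [E0_even] at h
    rw [st_even, if_pos (Or.inr h)]

lemma st_spec (i : ℕ) : ∀ e, beh b e (st in0 b i e) ∧
    (E0 in0 (st in0 b i e) ∨ st in0 b i e ≤ 2 * i) := by
  intro e
  induction e using Nat.strong_induction_on with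
  | _ e ih =>
    rcases edge_cases e with rfl | ⟨j, rfl | rfl⟩
    · rw [st_zero]
      exact ⟨beh_refl b 0, Or.inl (E0_zero in0)⟩
    · rw [st_odd]
      have hb := bs_le b j
      split_ifs with h
      · refine ⟨beh_refl b _, ?_⟩
        rcases h with h | h
        · exact Or.inr h
        · exact Or.inl ((E0_odd in0).2 h)
      · have := ih (bs b j) (by omega)
        exact ⟨(beh_odd b j _).2 (Or.inr this.1), this.2⟩
    · rw [st_even]
      have hb := bs_le b j
      split_ifs with h
      · refine ⟨beh_refl b _, ?_⟩
        rcases h with h | h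
        · exact Or.inr h
        · exact Or.inl ((E0_even in0).2 h)
      · have := ih (bs b j) (by omega)
        exact ⟨(beh_even b j _).2 (Or.inr this.1), this.2⟩

variable (hd : ∀ j, in0 j → E0 in0 (bs b j))
include hd

lemma E0_S0 : ∀ e, E0 in0 e → S0 in0 (ends b e).1 ∧ S0 in0 (ends b e).2 := by
  intro e
  induction e using Nat.strong_induction_on with
  | _ e ih =>
    intro he
    rcases edge_cases e with rfl | ⟨j, rfl | rfl⟩
    · rw [ends_zero]
      exact ⟨Or.inl (by simp), Or.inl (by simp)⟩
    · rw [E0_odd] at he
      have hb := bs_le b j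
      have := ih (bs b j) (by omega) (hd j he)
      rw [ends_odd]
      exact ⟨(S0_succ in0).2 he, this.1⟩
    · rw [E0_even] at he
      have hb := bs_le b j
      have := ih (bs b j) (by omega) (hd j he)
      rw [ends_even]
      exact ⟨(S0_succ in0).2 he, this.2⟩

lemma E0_not_beh : ∀ e i, E0 in0 e → ¬ in0 i →
    ¬ beh b e (2 * i + 1) ∧ ¬ beh b e (2 * i + 2) := by
  intro e
  induction e using Nat.strong_induction_on with
  | _ e ih =>
    intro i he hi
    rcases edge_cases e with rfl | ⟨j, hj⟩
    · rw [beh_zero, beh_zero]
      omega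
    · have hb := bs_le b j
      have hj0 : in0 j := by
        rcases hj with rfl | rfl
        · exact (E0_odd in0).1 he
        · exact (E0_even in0).1 he
      have hij : i ≠ j := fun h => hi (h ▸ hj0)
      rw [beh_odd_step b hj hij, beh_even_step b hj hij]
      exact ih (bs b j) (by omega) i (hd j hj0) hi

lemma tri_S0 (e i : ℕ) (hi : in0 i) : S0 in0 (nv b e i) ∧ E0 in0 (en b e i) ∧
    E0 in0 (ch1 b e i) ∧ E0 in0 (ch2 b e i) := by
  have h1 := hd i hi
  have h2 := E0_S0 b in0 hd (bs b i) h1
  have h3 : S0 in0 (i + 2) := (S0_succ in0).2 hi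
  have h4 : E0 in0 (2 * i + 1) := (E0_odd in0).2 hi
  have h5 : E0 in0 (2 * i + 2) := (E0_even in0).2 hi
  rcases tri_cases b e i with ⟨a1, a2, a3, a4⟩ | ⟨a1, a2, a3, a4⟩ | ⟨a1, a2, a3, a4⟩
  · rw [a1, a2, a3, a4]
    exact ⟨h3, h1, h4, h5⟩
  · rw [a1, a2, a3, a4]
    exact ⟨h2.2, h4, h1, h5⟩
  · rw [a1, a2, a3, a4]
    exact ⟨h2.1, h5, h1, h4⟩

omit hd in
lemma top_E0 (e : ℕ) : E0 in0 (top in0 b e) := by
  have h := (st_spec b in0 0 e).2
  unfold top
  rcases h with h | h
  · exact h
  · have h2 : st in0 b 0 e = 0 := by omega
    rw [h2]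
    exact E0_zero in0

lemma st_of_odd (i : ℕ) (hi : ¬ in0 i) : ∀ e, beh b e (2 * i + 1) →
    st in0 b (i + 1) e = 2 * i + 1 := by
  intro e
  induction e using Nat.strong_induction_on with
  | _ e ih =>
    intro he
    have hle := beh_le b _ _ he
    rcases edge_cases e with rfl | ⟨j, hj⟩
    · omega
    · have hb := bs_le b j
      by_cases hij : i = j
      · subst hij
        rcases hj with rfl | rfl
        · exact st_of_le b in0 (i + 1) _ (by omega)
        · rw [beh_step b (Or.inr rfl) (by omega)] at he
          exact absurd he (not_beh_of_lt b (by omega))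
      · rw [beh_odd_step b hj hij] at he
        have hle2 := beh_le b _ _ he
        have hjin : ¬ in0 j := fun h => (E0_not_beh b in0 hd (bs b j) i (hd j h) hi).1 he
        rcases hj with rfl | rfl
        · have hneg : ¬ (2 * j + 1 ≤ 2 * (i + 1) ∨ in0 j) := by
            rintro (h | h)
            · omega
            · exact hjin h
          rw [st_odd, if_neg hneg]
          exact ih (bs b j) (by omega) he
        · have hneg : ¬ (2 * j + 2 ≤ 2 * (i + 1) ∨ in0 j) := by
            rintro (h | h)
            · omega
            · exact hjin h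
          rw [st_even, if_neg hneg]
          exact ih (bs b j) (by omega) he

lemma st_of_even (i : ℕ) (hi : ¬ in0 i) : ∀ e, beh b e (2 * i + 2) →
    st in0 b (i + 1) e = 2 * i + 2 := by
  intro e
  induction e using Nat.strong_induction_on with
  | _ e ih =>
    intro he
    have hle := beh_le b _ _ he
    rcases edge_cases e with rfl | ⟨j, hj⟩
    · omega
    · have hb := bs_le b j
      by_cases hij : i = j
      · subst hij
        rcases hj with rfl | rfl
        · omega
        · exact st_of_le b in0 (i + 1) _ (by omega)
      · rw [beh_even_step b hj hij] at he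
        have hle2 := beh_le b _ _ he
        have hjin : ¬ in0 j := fun h => (E0_not_beh b in0 hd (bs b j) i (hd j h) hi).2 he
        rcases hj with rfl | rfl
        · have hneg : ¬ (2 * j + 1 ≤ 2 * (i + 1) ∨ in0 j) := by
            rintro (h | h)
            · omega
            · exact hjin h
          rw [st_odd, if_neg hneg]
          exact ih (bs b j) (by omega) he
        · have hneg : ¬ (2 * j + 2 ≤ 2 * (i + 1) ∨ in0 j) := by
            rintro (h | h)
            · omega
            · exact hjin h
          rw [st_even, if_neg hneg]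
          exact ih (bs b j) (by omega) he

lemma beh_top : ∀ e i, in0 i → (beh b e (2 * i + 1) ↔ beh b (top in0 b e) (2 * i + 1)) ∧
    (beh b e (2 * i + 2) ↔ beh b (top in0 b e) (2 * i + 2)) := by
  intro e
  unfold top
  induction e using Nat.strong_induction_on with
  | _ e ih =>
    intro i hi
    rcases edge_cases e with rfl | ⟨j, hj⟩
    · rw [st_zero]
      exact ⟨Iff.rfl, Iff.rfl⟩
    · have hb := bs_le b j
      by_cases hj0 : in0 j
      · have : st in0 b 0 e = e := by
          refine st_of_E0 b in0 0 e ?_
          rcases hj with rfl | rfl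
          · exact (E0_odd in0).2 hj0
          · exact (E0_even in0).2 hj0
        rw [this]
        exact ⟨Iff.rfl, Iff.rfl⟩
      · have hij : i ≠ j := fun h => hj0 (h ▸ hi)
        have h1 : st in0 b 0 e = st in0 b 0 (bs b j) := by
          rcases hj with rfl | rfl
          · have hneg : ¬ (2 * j + 1 ≤ 2 * 0 ∨ in0 j) := by
              rintro (h | h)
              · omega
              · exact hj0 h
            rw [st_odd, if_neg hneg]
          · have hneg : ¬ (2 * j + 2 ≤ 2 * 0 ∨ in0 j) := by
              rintro (h | h)
              · omega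
              · exact hj0 h
            rw [st_even, if_neg hneg]
        rw [h1, beh_odd_step b hj hij, beh_even_step b hj hij]
        exact ih (bs b j) (by omega) i hi

lemma nv_top (e i : ℕ) (hi : in0 i) : nv b e i = nv b (top in0 b e) i ∧
    en b e i = en b (top in0 b e) i := by
  obtain ⟨h1, h2⟩ := beh_top b in0 hd e i hi
  unfold nv en
  rw [propext h1, propext h2]
  exact ⟨rfl, rfl⟩

lemma isEnd_top : ∀ e v, isEnd b e v → S0 in0 v → isEnd b (top in0 b e) v := by
  intro e
  unfold top
  induction e using Nat.strong_induction_on with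
  | _ e ih =>
    intro v hv hv0
    rcases edge_cases e with rfl | ⟨j, hj⟩
    · rw [st_zero]
      exact hv
    · have hb := bs_le b j
      by_cases hj0 : in0 j
      · have : st in0 b 0 e = e := by
          refine st_of_E0 b in0 0 e ?_
          rcases hj with rfl | rfl
          · exact (E0_odd in0).2 hj0
          · exact (E0_even in0).2 hj0
        rw [this]
        exact hv
      · have h1 : st in0 b 0 e = st in0 b 0 (bs b j) := by
          rcases hj with rfl | rfl
          · have hneg : ¬ (2 * j + 1 ≤ 2 * 0 ∨ in0 j) := by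
              rintro (h | h)
              · omega
              · exact hj0 h
            rw [st_odd, if_neg hneg]
          · have hneg : ¬ (2 * j + 2 ≤ 2 * 0 ∨ in0 j) := by
              rintro (h | h)
              · omega
              · exact hj0 h
            rw [st_even, if_neg hneg]
        rw [h1]
        refine ih (bs b j) (by omega) v ?_ hv0
        unfold isEnd at hv ⊢
        rcases hj with rfl | rfl
        · rw [ends_fst_odd, ends_snd_odd] at hv
          rcases hv with rfl | rfl
          · exact absurd ((S0_succ in0).1 hv0) hj0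
          · exact Or.inl rfl
        · rw [ends_fst_even, ends_snd_even] at hv
          rcases hv with rfl | rfl
          · exact absurd ((S0_succ in0).1 hv0) hj0
          · exact Or.inr rfl

lemma cover : ∀ e v, E0 in0 e → S0 in0 v → isEnd b e v ∨ ∃ i, in0 i ∧ v = nv b e i := by
  intro e
  induction e using Nat.strong_induction_on with
  | _ e ih =>
    intro v he hv
    rcases edge_cases e with rfl | ⟨j, hj⟩
    · rcases hv with hv | ⟨i, hi, rfl⟩
      · left
        unfold isEnd
        rw [ends_zero]
        dsimp only
        omega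
      · right
        refine ⟨i, hi, ?_⟩
        rw [(front_of_le b (e := 0) (i := i) (by omega)).2.1]
    · have hb := bs_le b j
      have hj0 : in0 j := by
        rcases hj with rfl | rfl
        · exact (E0_odd in0).1 he
        · exact (E0_even in0).1 he
      have h0 := front_of_le b (e := bs b j) (i := j) hb
      rcases ih (bs b j) (by omega) v (hd j hj0) hv with h | ⟨i, hi, h⟩
      · unfold isEnd at h
        change v = pA b j ∨ v = pB b j at h
        rcases hj with rfl | rfl
        · rcases h with h | h
          · left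
            unfold isEnd
            rw [ends_snd_odd]
            exact Or.inr h
          · right
            exact ⟨j, hj0, by rw [(back_odd b (beh_refl b (2 * j + 1))).2.1]; exact h⟩
        · rcases h with h | h
          · right
            exact ⟨j, hj0, by rw [(back_even b (beh_refl b (2 * j + 2))).2.1]; exact h⟩
          · left
            unfold isEnd
            rw [ends_snd_even]
            exact Or.inr h
      · by_cases hij : i = j
        · subst hij
          left
          rw [h0.2.1] at h
          unfold isEnd
          rcases hj with rfl | rfl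
          · rw [ends_fst_odd]
            exact Or.inl h
          · rw [ends_fst_even]
            exact Or.inl h
        · right
          exact ⟨i, hi, by rw [nv_step b hj hij]; exact h⟩

omit hd in
/-- the vertex `nv b e i` is not an end of `e` -/
lemma nv_not_isEnd : ∀ e i, ¬ isEnd b e (nv b e i) := by
  intro e i h
  set N := e + i + 1 with hN
  have h1 := sum_verts b N (fun v => if v = nv b e i then 1 else 0) e (by omega)
  have h2 := (ends_aux b e)
  have hnv : nv b e i < N + 2 := by
    have hp := p_le b i
    rcases tri_cases b e i with ⟨_, a2, _, _⟩ | ⟨_, a2, _, _⟩ | ⟨_, a2, _, _⟩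
    all_goals
      rw [a2]
      omega
  have h3 : ∑ v ∈ range (N + 2), (if v = nv b e i then 1 else 0) = 1 := by
    rw [sum_ite_eq' (range (N + 2)) (nv b e i) (fun _ => 1)]
    rw [if_pos (mem_range.2 hnv)]
  rw [h3] at h1
  have h4 : (1 : ℕ) ≤ ∑ j ∈ range N, (if nv b e j = nv b e i then 1 else 0) := by
    have := single_le_sum (f := fun j => if nv b e j = nv b e i then 1 else 0)
      (fun _ _ => Nat.zero_le _) (mem_range.2 (by omega : i < N))
    simp only [if_true] at this
    exact this
  unfold isEnd at h
  rcases h with h | h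
  · rw [if_pos h.symm] at h1
    omega
  · rw [if_pos h.symm] at h1
    omega

omit hd in
theorem root0 : ROOT0_S := by
  intro b in0 hd
  exact ⟨E0_S0 b in0 hd, tri_S0 b in0 hd,
    fun e i he hi => ⟨(E0_not_beh b in0 hd e i he hi).1, (E0_not_beh b in0 hd e i he hi).2,
      (front b (E0_not_beh b in0 hd e i he hi).1 (E0_not_beh b in0 hd e i he hi).2).1,
      (front b (E0_not_beh b in0 hd e i he hi).1 (E0_not_beh b in0 hd e i he hi).2).2.1⟩,
    st_of_E0 b in0, st_of_le b in0, st_spec b in0, top_E0 b in0,
    fun i e hi => st_of_odd b in0 hd i hi e, fun i e hi => st_of_even b in0 hd i hi e,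
    nv_top b in0 hd, isEnd_top b in0 hd, cover b in0 hd, nv_not_isEnd b⟩

end MP_182bbb_co.TT
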