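import Pool.Agent.Lib.MP_182bbb_co.TT.Iface

/-!
# TREE: elementary facts on coded 2-trees
-/

open Finset

namespace MP_182bbb_co.TT

open MP_182bbb_co.H5

lemma ends_aux (b : ℕ → ℕ) : ∀ e, (ends b e).1 ≤ (e + 1) / 2 + 1 ∧
    (ends b e).2 ≤ (e + 1) / 2 + 1 ∧ (ends b e).1 ≠ (ends b e).2 := by
  intro e
  induction e using Nat.strong_induction_on with
  | _ e ih =>
    rcases Nat.eq_zero_or_pos e with rfl | he
    · simp
    · obtain ⟨i, hi⟩ : ∃ i, e = 2 * i + 1 ∨ e = 2 * i + 2 := ⟨(e - 1) / 2, by omega⟩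
      have hb := bs_le b i
      have h := ih (bs b i) (by omega)
      rcases hi with rfl | rfl
      · rw [ends_odd]
        unfold pA
        refine ⟨?_, ?_, ?_⟩
        · show i + 2 ≤ _
          omega
        · show (ends b (bs b i)).1 ≤ _
          omega
        · show i + 2 ≠ (ends b (bs b i)).1
          omega
      · rw [ends_even]
        unfold pB
        refine ⟨?_, ?_, ?_⟩
        · show i + 2 ≤ _
          omega
        · show (ends b (bs b i)).2 ≤ _
          omega
        · show i + 2 ≠ (ends b (bs b i)).2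
          omega

lemma p_le (b : ℕ → ℕ) (i : ℕ) : pA b i ≤ i + 1 ∧ pB b i ≤ i + 1 ∧ pA b i ≠ pB b i := by
  have h := ends_aux b (bs b i)
  have hb := bs_le b i
  unfold pA pB
  refine ⟨by omega, by omega, h.2.2⟩

lemma col_succ (b : ℕ → ℕ) (i : ℕ) :
    col b (i + 2) = 3 - col b (pA b i) - col b (pB b i) := by
  rw [col]
  have h := p_le b i
  rw [dif_pos ⟨by omega, by omega⟩]

@[simp] lemma col_zero (b : ℕ → ℕ) : col b 0 = 0 := by rw [col]

@[simp] lemma col_one (b : ℕ → ℕ) : col b 1 = 1 := by rw [col]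

lemma col_aux (b : ℕ → ℕ) : ∀ e, col b (ends b e).1 ≤ 2 ∧ col b (ends b e).2 ≤ 2 ∧
    col b (ends b e).1 ≠ col b (ends b e).2 := by
  intro e
  induction e using Nat.strong_induction_on with
  | _ e ih =>
    rcases Nat.eq_zero_or_pos e with rfl | he
    · simp
    · obtain ⟨i, hi⟩ : ∃ i, e = 2 * i + 1 ∨ e = 2 * i + 2 := ⟨(e - 1) / 2, by omega⟩
      have hb := bs_le b i
      have h := ih (bs b i) (by omega)
      have hc := col_succ b i
      change col b (pA b i) ≤ 2 ∧ col b (pB b i) ≤ 2 ∧ col b (pA b i) ≠ col b (pB b i) at h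
      rcases hi with rfl | rfl
      · rw [ends_odd]
        dsimp only
        omega
      · rw [ends_even]
        dsimp only
        omega

lemma col_tri (b : ℕ → ℕ) (i : ℕ) : col b (i + 2) + col b (pA b i) + col b (pB b i) = 3 := by
  have h := col_aux b (bs b i)
  have hc := col_succ b i
  change col b (pA b i) ≤ 2 ∧ col b (pB b i) ≤ 2 ∧ col b (pA b i) ≠ col b (pB b i) at h
  omega

lemma col_le (b : ℕ → ℕ) (v : ℕ) : col b v ≤ 2 := by
  rcases v with _ | _ | i
  · simp
  · simp
  · have h := col_tri b i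
    change col b (i + 2) ≤ 2
    have h2 := col_aux b (bs b i)
    change col b (pA b i) ≤ 2 ∧ col b (pB b i) ≤ 2 ∧ col b (pA b i) ≠ col b (pB b i) at h2
    omega

lemma ends_fst_odd (b : ℕ → ℕ) (i : ℕ) : (ends b (2 * i + 1)).1 = i + 2 := by rw [ends_odd]
lemma ends_snd_odd (b : ℕ → ℕ) (i : ℕ) : (ends b (2 * i + 1)).2 = pA b i := by rw [ends_odd]
lemma ends_fst_even (b : ℕ → ℕ) (i : ℕ) : (ends b (2 * i + 2)).1 = i + 2 := by rw [ends_even]
lemma ends_snd_even (b : ℕ → ℕ) (i : ℕ) : (ends b (2 * i + 2)).2 = pB b i := by rw [ends_even]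

/-- edges are determined by their ends -/
lemma ends_inj (b : ℕ → ℕ) (e f : ℕ) (h1 : isEnd b e (ends b f).1)
    (h2 : isEnd b e (ends b f).2) : e = f := by
  have key : ∀ e f, isEnd b e (ends b f).1 → isEnd b e (ends b f).2 → e ≤ f → e = f := by
    intro e f h1 h2 hef
    rcases Nat.eq_zero_or_pos f with rfl | hf
    · omega
    · obtain ⟨i, hi⟩ : ∃ i, f = 2 * i + 1 ∨ f = 2 * i + 2 := ⟨(f - 1) / 2, by omega⟩
      have h3 : (ends b f).1 = i + 2 := by
        rcases hi with rfl | rfl
        · exact ends_fst_odd b i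
        · exact ends_fst_even b i
      have h4 := ends_aux b e
      unfold isEnd at h1 h2
      rw [h3] at h1
      have h5 : 2 * i + 1 ≤ e := by omega
      have hp := p_le b i
      have h6 : e = 2 * i + 1 ∨ e = 2 * i + 2 := by omega
      rcases h6 with rfl | rfl
      · rcases hi with rfl | rfl
        · rfl
        · rw [ends_fst_odd, ends_snd_odd, ends_snd_even] at h2
          omega
      · rcases hi with rfl | rfl
        · omega
        · rfl
  rcases le_total e f with h | h
  · exact key e f h1 h2 h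
  · refine (key f e ?_ ?_ h).symm
    all_goals
      have h3 := (ends_aux b f).2.2
      unfold isEnd at h1 h2 ⊢
      omega

theorem tree : TREE_S := by
  intro b
  exact ⟨ends_aux b, p_le b, col_le b, fun e => (col_aux b e).2.2, col_tri b, ends_inj b⟩

end MP_182bbb_co.TT
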